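import Mathlib

/-!
# Project NR: the inequality of Turán in two variables
-/

set_option autoImplicit false
set_option linter.all false

namespace Pool.Agent.R421.NR

open Finset

/-- the abstract second moment -/
lemma turan_abs {Ω : Type} (B : Finset Ω) (P : Finset ℕ) (f : ℕ → Ω → ℝ) (m : ℕ → ℝ)
    (X E1 E2 : ℝ) (D : ℕ → ℝ) (hX : X = B.card) (hE2 : 0 ≤ E2)
    (h1 : ∀ p ∈ P, |∑ t ∈ B, f p t - X * m p| ≤ E1)
    (h2 : ∀ p ∈ P, ∀ q ∈ P, p ≠ q → |∑ t ∈ B, f p t * f q t - X * (m p * m q)| ≤ E2)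
    (h3 : ∀ p ∈ P, ∑ t ∈ B, f p t ^ 2 ≤ D p) :
    ∑ t ∈ B, (∑ p ∈ P, f p t - ∑ p ∈ P, m p) ^ 2 ≤
      ∑ p ∈ P, D p + P.card ^ 2 * E2 + 2 * |∑ p ∈ P, m p| * (P.card * E1) := by
  obtain ⟨M, hM⟩ : ∃ M, M = ∑ p ∈ P, m p := ⟨_, rfl⟩
  rw [← hM]
  have hX0 : 0 ≤ X := by rw [hX]; positivity
  have e1 : ∑ t ∈ B, (∑ p ∈ P, f p t - M) ^ 2 =
      ∑ p ∈ P, ∑ q ∈ P, ∑ t ∈ B, f p t * f q t - 2 * M * ∑ p ∈ P, ∑ t ∈ B, f p t +
        X * M ^ 2 := by
    have a1 : ∀ t ∈ B, (∑ p ∈ P, f p t - M) ^ 2 =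
        ∑ p ∈ P, ∑ q ∈ P, f p t * f q t - 2 * M * ∑ p ∈ P, f p t + M ^ 2 := by
      intro t _
      rw [← sum_mul_sum]
      ring
    rw [sum_congr rfl a1, sum_add_distrib, sum_sub_distrib, sum_const, nsmul_eq_mul, ← hX,
      ← mul_sum, sum_comm (s := B) (t := P), sum_comm (s := B) (t := P)]
    congr 2
    refine sum_congr rfl fun p _ => ?_
    rw [sum_comm]
  have e2 : ∑ p ∈ P, ∑ q ∈ P, ∑ t ∈ B, f p t * f q t ≤
      ∑ p ∈ P, D p + X * M ^ 2 + P.card ^ 2 * E2 := by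
    have a1 : ∀ p ∈ P, ∑ q ∈ P, ∑ t ∈ B, f p t * f q t ≤
        ∑ q ∈ P, ((if q = p then D p else 0) + X * (m p * m q) + E2) := by
      intro p hp
      refine sum_le_sum fun q hq => ?_
      by_cases hpq : q = p
      · subst hpq
        rw [if_pos rfl]
        have := h3 q hq
        have a2 : 0 ≤ X * (m q * m q) := mul_nonneg hX0 (mul_self_nonneg _)
        calc ∑ t ∈ B, f q t * f q t = ∑ t ∈ B, f q t ^ 2 := by
              exact sum_congr rfl fun t _ => by ring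
          _ ≤ _ := by linarith
      · rw [if_neg hpq]
        have := (abs_le.1 (h2 p hp q hq (Ne.symm hpq))).2
        linarith
    refine (sum_le_sum a1).trans (le_of_eq ?_)
    have a3 : ∀ p ∈ P, ∑ q ∈ P, ((if q = p then D p else 0) + X * (m p * m q) + E2) =
        D p + X * (m p * M) + P.card * E2 := by
      intro p hp
      rw [sum_add_distrib, sum_add_distrib, sum_ite_eq' P p, if_pos hp, sum_const, nsmul_eq_mul,
        ← mul_sum, ← mul_sum, ← hM]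
    rw [sum_congr rfl a3, sum_add_distrib, sum_add_distrib, sum_const, nsmul_eq_mul, ← mul_sum,
      ← sum_mul, ← hM]
    ring
  have e3 : |∑ p ∈ P, ∑ t ∈ B, f p t - X * M| ≤ P.card * E1 := by
    have a1 : ∑ p ∈ P, ∑ t ∈ B, f p t - X * M = ∑ p ∈ P, (∑ t ∈ B, f p t - X * m p) := by
      rw [sum_sub_distrib, ← mul_sum, ← hM]
    rw [a1]
    refine (abs_sum_le_sum_abs _ _).trans ((sum_le_sum h1).trans (le_of_eq ?_))
    rw [sum_const, nsmul_eq_mul]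
  have e4 : -(2 * M * ∑ p ∈ P, ∑ t ∈ B, f p t) ≤ -(2 * X * M ^ 2) + 2 * |M| * (P.card * E1) := by
    have a1 : -(2 * M * ∑ p ∈ P, ∑ t ∈ B, f p t) =
        -(2 * X * M ^ 2) + 2 * (-M * (∑ p ∈ P, ∑ t ∈ B, f p t - X * M)) := by ring
    have a2 : -M * (∑ p ∈ P, ∑ t ∈ B, f p t - X * M) ≤ |M| * (P.card * E1) := by
      refine (le_abs_self _).trans ?_
      rw [abs_mul, abs_neg]
      exact mul_le_mul_of_nonneg_left e3 (abs_nonneg _)
    rw [a1]
    linarith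
  rw [e1]
  linarith

/-- the second moment for functions of classes -/
lemma cls_sum {α : Type} [Fintype α] [DecidableEq α] (I J : Finset ℤ) (c : ℤ → α) (x y : ℝ)
    (hx : 0 ≤ x) (hI : ∀ a, |((I.filter (fun m => c m = a)).card : ℝ) - x| ≤ 1)
    (hJ : ∀ a, |((J.filter (fun m => c m = a)).card : ℝ) - y| ≤ 1) (g : α → α → ℝ) :
    |∑ t ∈ I ×ˢ J, g (c t.1) (c t.2) - x * y * ∑ a, ∑ b, g a b| ≤
      (∑ a, ∑ b, |g a b|) * (x + y + 1) := by
  have e1 : ∑ t ∈ I ×ˢ J, g (c t.1) (c t.2) = ∑ a, ∑ b,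
      g a b * (((I.filter (fun m => c m = a)).card : ℝ) *
        ((J.filter (fun m => c m = b)).card : ℝ)) := by
    rw [sum_product, ← sum_fiberwise' I c (fun a => ∑ n ∈ J, g a (c n))]
    refine sum_congr rfl fun a _ => ?_
    rw [sum_const, nsmul_eq_mul, ← sum_fiberwise' J c (fun b => g a b), mul_sum]
    refine sum_congr rfl fun b _ => ?_
    rw [sum_const, nsmul_eq_mul]
    ring
  rw [e1, mul_sum, ← sum_sub_distrib, sum_mul]
  refine (abs_sum_le_sum_abs _ _).trans (sum_le_sum fun a _ => ?_)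
  rw [mul_sum, ← sum_sub_distrib, sum_mul]
  refine (abs_sum_le_sum_abs _ _).trans (sum_le_sum fun b _ => ?_)
  have e2 : g a b * (((I.filter (fun m => c m = a)).card : ℝ) *
        ((J.filter (fun m => c m = b)).card : ℝ)) - x * y * g a b =
      g a b * ((((I.filter (fun m => c m = a)).card : ℝ) - x) *
        ((J.filter (fun m => c m = b)).card : ℝ) +
        x * (((J.filter (fun m => c m = b)).card : ℝ) - y)) := by ring
  rw [e2, abs_mul]
  refine mul_le_mul_of_nonneg_left ?_ (abs_nonneg _)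
  have h1 := hI a
  have h2 := hJ b
  have h3 : ((J.filter (fun m => c m = b)).card : ℝ) ≤ y + 1 := by
    have := (abs_le.1 h2).2
    linarith
  have h4 : (0 : ℝ) ≤ ((J.filter (fun m => c m = b)).card : ℝ) := Nat.cast_nonneg _
  refine (abs_add_le _ _).trans ?_
  rw [abs_mul, abs_mul, abs_of_nonneg h4, abs_of_nonneg hx]
  have h5 : |((I.filter (fun m => c m = a)).card : ℝ) - x| *
      ((J.filter (fun m => c m = b)).card : ℝ) ≤ 1 * (y + 1) :=
    mul_le_mul h1 h3 h4 zero_le_one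
  have h6 : x * |((J.filter (fun m => c m = b)).card : ℝ) - y| ≤ x * 1 :=
    mul_le_mul_of_nonneg_left h2 hx
  linarith

lemma cnt_cls (N : ℕ) (hN : 0 < N) (a : ℤ) (K : ℕ) (r : ZMod N) :
    |(((Ioc a (a + K)).filter (fun m : ℤ => (m : ZMod N) = r)).card : ℝ) - (K : ℝ) / N| ≤ 1 := by
  haveI : NeZero N := ⟨hN.ne'⟩
  have e0 : (Ioc a (a + K)).filter (fun m : ℤ => (m : ZMod N) = r) =
      (Ioc a (a + K)).filter (fun m : ℤ => m ≡ (r.val : ℤ) [ZMOD N]) := by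
    refine filter_congr fun m _ => ?_
    rw [← ZMod.intCast_eq_intCast_iff, Int.cast_natCast, ZMod.natCast_zmod_val]
  rw [e0]
  have h := Int.Ioc_filter_modEq_card a (a + K) (r := (N : ℤ)) (by exact_mod_cast hN) (r.val : ℤ)
  have hNq : (0 : ℚ) < N := by exact_mod_cast hN
  obtain ⟨u, hu⟩ : ∃ u : ℤ, u = ⌊(((a + K : ℤ) : ℚ) - ((r.val : ℤ) : ℚ)) / ((N : ℤ) : ℚ)⌋ :=
    ⟨_, rfl⟩
  obtain ⟨v, hv⟩ : ∃ v : ℤ, v = ⌊((a : ℚ) - ((r.val : ℤ) : ℚ)) / ((N : ℤ) : ℚ)⌋ := ⟨_, rfl⟩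
  rw [← hu, ← hv] at h
  have u1 := Int.floor_le ((((a + K : ℤ) : ℚ) - ((r.val : ℤ) : ℚ)) / ((N : ℤ) : ℚ))
  have u2 := Int.lt_floor_add_one ((((a + K : ℤ) : ℚ) - ((r.val : ℤ) : ℚ)) / ((N : ℤ) : ℚ))
  have v1 := Int.floor_le (((a : ℚ) - ((r.val : ℤ) : ℚ)) / ((N : ℤ) : ℚ))
  have v2 := Int.lt_floor_add_one (((a : ℚ) - ((r.val : ℤ) : ℚ)) / ((N : ℤ) : ℚ))
  rw [← hu] at u1 u2
  rw [← hv] at v1 v2
  have e : (((a + K : ℤ) : ℚ) - ((r.val : ℤ) : ℚ)) / ((N : ℤ) : ℚ) =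
      ((a : ℚ) - ((r.val : ℤ) : ℚ)) / ((N : ℤ) : ℚ) + (K : ℚ) / N := by
    push_cast
    field_simp
    ring
  rw [e] at u1 u2
  have hK : (0 : ℚ) ≤ (K : ℚ) / N := by positivity
  have huv : v ≤ u := by
    have : (v : ℚ) < u + 1 := by linarith
    have : v < u + 1 := by exact_mod_cast this
    omega
  rw [max_eq_left (by omega)] at h
  have h' : ((((Ioc a (a + K)).filter (fun m : ℤ => m ≡ (r.val : ℤ) [ZMOD N])).card : ℤ) : ℚ) =
      ((u - v : ℤ) : ℚ) := by rw [h]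
  push_cast at h'
  have hq : |((((Ioc a (a + K)).filter (fun m : ℤ => m ≡ (r.val : ℤ) [ZMOD N])).card : ℕ) : ℚ) -
      (K : ℚ) / N| ≤ 1 := by
    rw [h', abs_le]
    constructor <;> linarith
  have hr := (Rat.cast_le (K := ℝ)).2 hq
  push_cast at hr
  exact hr

lemma cnt_crt (p q : ℕ) (hp : 0 < p) (hq : 0 < q) (hc : p.Coprime q) (a : ℤ) (K : ℕ)
    (r : ZMod p × ZMod q) :
    |(((Ioc a (a + K)).filter (fun m : ℤ => ((m : ZMod p), (m : ZMod q)) = r)).card : ℝ) -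
      (K : ℝ) / ((p : ℝ) * q)| ≤ 1 := by
  have h := cnt_cls (p * q) (Nat.mul_pos hp hq) a K ((ZMod.chineseRemainder hc).symm r)
  have e0 : (Ioc a (a + K)).filter (fun m : ℤ => ((m : ZMod p), (m : ZMod q)) = r) =
      (Ioc a (a + K)).filter (fun m : ℤ => (m : ZMod (p * q)) =
        (ZMod.chineseRemainder hc).symm r) := by
    refine filter_congr fun m _ => ?_
    rw [RingEquiv.eq_symm_apply, map_intCast]
    rfl
  rw [e0]
  push_cast at h
  exact h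

/-- **the inequality of Turán in two variables** -/
theorem turan (h : ∀ p : ℕ, ZMod p → ZMod p → ℝ) (P : Finset ℕ) (hP : ∀ p ∈ P, p.Prime)
    (c : ℝ) (hc : 1 ≤ c)
    (S : ℕ → ℝ)
    (hS : ∀ p ∈ P, ∀ [NeZero p], ∑ x : ZMod p, ∑ y : ZMod p, h p x y = S p)
    (hA : ∀ p ∈ P, ∀ [NeZero p], ∑ x : ZMod p, ∑ y : ZMod p, |h p x y| ≤ c * p)
    (hb : ∀ p x y, |h p x y| ≤ c) (y : ℕ) (hy : ∀ p ∈ P, p ≤ y) (hy1 : 1 ≤ y)
    (a b : ℤ) (K L : ℕ) (hK : y ^ 4 ≤ K) (hL : y ^ 4 ≤ L) :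
    ∑ t ∈ Ioc a (a + K) ×ˢ Ioc b (b + L), (∑ p ∈ P, h p (t.1 : ZMod p) (t.2 : ZMod p) -
      ∑ p ∈ P, S p / p ^ 2) ^ 2 ≤ 16 * c ^ 2 * ((K : ℝ) * L) * (1 + ∑ p ∈ P, 1 / (p : ℝ)) := by
  classical
  have hy1r : (1 : ℝ) ≤ y := by exact_mod_cast hy1
  have hKr : (y : ℝ) ^ 4 ≤ K := by exact_mod_cast hK
  have hLr : (y : ℝ) ^ 4 ≤ L := by exact_mod_cast hL
  have hK0 : (0 : ℝ) ≤ K := Nat.cast_nonneg K
  have hL0 : (0 : ℝ) ≤ L := Nat.cast_nonneg L
  have hc0 : (0 : ℝ) ≤ c := by linarith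
  have hcard : P.card ≤ y := by
    have : P ⊆ Icc 1 y := by
      intro p hp
      rw [mem_Icc]
      exact ⟨(hP p hp).one_lt.le, hy p hp⟩
    refine (card_le_card this).trans ?_
    rw [Nat.card_Icc]
    omega
  have hcardr : (P.card : ℝ) ≤ y := by exact_mod_cast hcard
  have hX : ((K : ℝ) * L) = ((Ioc a (a + K) ×ˢ Ioc b (b + L)).card : ℝ) := by
    rw [card_product, Int.card_Ioc, Int.card_Ioc]
    push_cast
    congr 1
    · have : (a + K - a).toNat = K := by omega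
      rw [this]
    · have : (b + L - b).toNat = L := by omega
      rw [this]
  have hpr : ∀ p ∈ P, (1 : ℝ) ≤ p ∧ (p : ℝ) ≤ y := fun p hp =>
    ⟨by exact_mod_cast (hP p hp).one_lt.le, by exact_mod_cast hy p hp⟩
  -- the sums
  have h1 : ∀ p ∈ P, |∑ t ∈ Ioc a (a + K) ×ˢ Ioc b (b + L), h p (t.1 : ZMod p) (t.2 : ZMod p) -
      (K : ℝ) * L * (S p / p ^ 2)| ≤ c * (K + L + y) := by
    intro p hp
    haveI : NeZero p := ⟨(hP p hp).ne_zero⟩
    obtain ⟨hp1, hpy⟩ := hpr p hp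
    have g1 := cls_sum (Ioc a (a + K)) (Ioc b (b + L)) (fun m : ℤ => (m : ZMod p))
      ((K : ℝ) / p) ((L : ℝ) / p) (by positivity) (cnt_cls p (hP p hp).pos a K)
      (cnt_cls p (hP p hp).pos b L) (h p)
    rw [hS p hp] at g1
    have e1 : (K : ℝ) / p * (L / p) * S p = (K : ℝ) * L * (S p / p ^ 2) := by
      field_simp
    rw [e1] at g1
    refine g1.trans ?_
    have g2 := hA p hp
    have g3 : (0 : ℝ) ≤ (K : ℝ) / p + L / p + 1 := by positivity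
    calc _ ≤ c * p * ((K : ℝ) / p + L / p + 1) := mul_le_mul_of_nonneg_right g2 g3
      _ = c * (K + L + p) := by
        have hp0 : (p : ℝ) ≠ 0 := by linarith
        field_simp
      _ ≤ _ := mul_le_mul_of_nonneg_left (by linarith) hc0
  have h2 : ∀ p ∈ P, ∀ q ∈ P, p ≠ q → |∑ t ∈ Ioc a (a + K) ×ˢ Ioc b (b + L),
      h p (t.1 : ZMod p) (t.2 : ZMod p) * h q (t.1 : ZMod q) (t.2 : ZMod q) -
      (K : ℝ) * L * (S p / p ^ 2 * (S q / q ^ 2))| ≤ c ^ 2 * (K + L + y ^ 2) := by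
    intro p hp q hq hpq
    haveI : NeZero p := ⟨(hP p hp).ne_zero⟩
    haveI : NeZero q := ⟨(hP q hq).ne_zero⟩
    obtain ⟨hp1, hpy⟩ := hpr p hp
    obtain ⟨hq1, hqy⟩ := hpr q hq
    have hcop : p.Coprime q := (Nat.coprime_primes (hP p hp) (hP q hq)).2 hpq
    have g1 := cls_sum (Ioc a (a + K)) (Ioc b (b + L))
      (fun m : ℤ => ((m : ZMod p), (m : ZMod q)))
      ((K : ℝ) / ((p : ℝ) * q)) ((L : ℝ) / ((p : ℝ) * q)) (by positivity)
      (cnt_crt p q (hP p hp).pos (hP q hq).pos hcop a K)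
      (cnt_crt p q (hP p hp).pos (hP q hq).pos hcop b L) (fun x z => h p x.1 z.1 * h q x.2 z.2)
    have e2 : ∀ (u : ZMod p → ZMod p → ℝ) (v : ZMod q → ZMod q → ℝ),
        ∑ x : ZMod p × ZMod q, ∑ z : ZMod p × ZMod q, u x.1 z.1 * v x.2 z.2 =
        (∑ x, ∑ z, u x z) * ∑ x, ∑ z, v x z := by
      intro u v
      rw [Fintype.sum_prod_type, sum_mul]
      refine sum_congr rfl fun x _ => ?_
      rw [mul_sum]
      refine sum_congr rfl fun x' _ => ?_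
      rw [Fintype.sum_prod_type, sum_mul]
      refine sum_congr rfl fun z _ => ?_
      rw [mul_sum]
    have e3 : ∑ x : ZMod p × ZMod q, ∑ z : ZMod p × ZMod q, |h p x.1 z.1 * h q x.2 z.2| =
        (∑ x, ∑ z, |h p x z|) * ∑ x, ∑ z, |h q x z| := by
      rw [← e2]
      refine sum_congr rfl fun x _ => sum_congr rfl fun z _ => abs_mul _ _
    rw [e2, e3, hS p hp, hS q hq] at g1
    have e1 : (K : ℝ) / ((p : ℝ) * q) * (L / ((p : ℝ) * q)) * (S p * S q) =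
        (K : ℝ) * L * (S p / p ^ 2 * (S q / q ^ 2)) := by
      field_simp
    rw [e1] at g1
    refine g1.trans ?_
    have g2 := hA p hp
    have g2' := hA q hq
    have g3 : (0 : ℝ) ≤ (K : ℝ) / ((p : ℝ) * q) + L / ((p : ℝ) * q) + 1 := by positivity
    have g4 : (∑ x, ∑ z, |h p x z|) * ∑ x, ∑ z, |h q x z| ≤ (c * p) * (c * q) :=
      mul_le_mul g2 g2' (sum_nonneg fun _ _ => sum_nonneg fun _ _ => abs_nonneg _)
        (by positivity)
    calc _ ≤ (c * p) * (c * q) * ((K : ℝ) / ((p : ℝ) * q) + L / ((p : ℝ) * q) + 1) :=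
          mul_le_mul_of_nonneg_right g4 g3
      _ = c ^ 2 * (K + L + p * q) := by
        have hp0 : (p : ℝ) ≠ 0 := by linarith
        have hq0 : (q : ℝ) ≠ 0 := by linarith
        field_simp
      _ ≤ _ := by
        refine mul_le_mul_of_nonneg_left ?_ (by positivity)
        have : (p : ℝ) * q ≤ y * y := mul_le_mul hpy hqy (by linarith) (by linarith)
        nlinarith
  have h3 : ∀ p ∈ P, ∑ t ∈ Ioc a (a + K) ×ˢ Ioc b (b + L),
      h p (t.1 : ZMod p) (t.2 : ZMod p) ^ 2 ≤ 4 * c ^ 2 * ((K : ℝ) * L) * (1 / (p : ℝ)) := by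
    intro p hp
    haveI : NeZero p := ⟨(hP p hp).ne_zero⟩
    obtain ⟨hp1, hpy⟩ := hpr p hp
    have hyK : (y : ℝ) ≤ K := by
      have : (y : ℝ) ≤ y ^ 4 := le_self_pow₀ hy1r (by norm_num)
      linarith
    have hyL : (y : ℝ) ≤ L := by
      have : (y : ℝ) ≤ y ^ 4 := le_self_pow₀ hy1r (by norm_num)
      linarith
    have g1 := cls_sum (Ioc a (a + K)) (Ioc b (b + L)) (fun m : ℤ => (m : ZMod p))
      ((K : ℝ) / p) ((L : ℝ) / p) (by positivity) (cnt_cls p (hP p hp).pos a K)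
      (cnt_cls p (hP p hp).pos b L) (fun x z => |h p x z|)
    have g2 := hA p hp
    have e1 : ∑ x : ZMod p, ∑ z : ZMod p, |(|h p x z|)| = ∑ x : ZMod p, ∑ z : ZMod p, |h p x z| :=
      sum_congr rfl fun x _ => sum_congr rfl fun z _ => abs_abs _
    rw [e1] at g1
    have g3 := (abs_le.1 g1).2
    obtain ⟨A, hAd⟩ : ∃ A, A = ∑ x : ZMod p, ∑ z : ZMod p, |h p x z| := ⟨_, rfl⟩
    rw [← hAd] at g2 g3
    have hA0 : 0 ≤ A := by
      rw [hAd]
      exact sum_nonneg fun _ _ => sum_nonneg fun _ _ => abs_nonneg _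
    have k1 : (1 : ℝ) ≤ (K : ℝ) / p := by rw [le_div_iff₀ (by linarith)]; linarith
    have k2 : (1 : ℝ) ≤ (L : ℝ) / p := by rw [le_div_iff₀ (by linarith)]; linarith
    have g4 : ∑ t ∈ Ioc a (a + K) ×ˢ Ioc b (b + L), |h p (t.1 : ZMod p) (t.2 : ZMod p)| ≤
        4 * c * ((K : ℝ) * L) * (1 / (p : ℝ)) := by
      have g5 : ∑ t ∈ Ioc a (a + K) ×ˢ Ioc b (b + L), |h p (t.1 : ZMod p) (t.2 : ZMod p)| ≤
          A * ((K : ℝ) / p * (L / p) + (K : ℝ) / p + L / p + 1) := by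
        have : ∑ t ∈ Ioc a (a + K) ×ˢ Ioc b (b + L), |h p (t.1 : ZMod p) (t.2 : ZMod p)| -
          (K : ℝ) / p * (L / p) * A ≤ A * ((K : ℝ) / p + L / p + 1) := g3
        linarith
      refine g5.trans ?_
      have g6 : (K : ℝ) / p * (L / p) + (K : ℝ) / p + L / p + 1 ≤ 4 * ((K : ℝ) / p * (L / p)) := by
        nlinarith
      calc A * ((K : ℝ) / p * (L / p) + (K : ℝ) / p + L / p + 1)
          ≤ (c * p) * (4 * ((K : ℝ) / p * (L / p))) :=
            mul_le_mul g2 g6 (by positivity) (by positivity)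
        _ = _ := by
          have hp0 : (p : ℝ) ≠ 0 := by linarith
          field_simp
    calc ∑ t ∈ Ioc a (a + K) ×ˢ Ioc b (b + L), h p (t.1 : ZMod p) (t.2 : ZMod p) ^ 2
        ≤ ∑ t ∈ Ioc a (a + K) ×ˢ Ioc b (b + L), c * |h p (t.1 : ZMod p) (t.2 : ZMod p)| := by
          refine sum_le_sum fun t _ => ?_
          rw [← sq_abs, pow_two]
          exact mul_le_mul_of_nonneg_right (hb p _ _) (abs_nonneg _)
      _ = c * ∑ t ∈ Ioc a (a + K) ×ˢ Ioc b (b + L), |h p (t.1 : ZMod p) (t.2 : ZMod p)| :=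
          (mul_sum _ _ _).symm
      _ ≤ c * (4 * c * ((K : ℝ) * L) * (1 / (p : ℝ))) := mul_le_mul_of_nonneg_left g4 hc0
      _ = _ := by ring
  have hM : |∑ p ∈ P, S p / (p : ℝ) ^ 2| ≤ c * y := by
    refine (abs_sum_le_sum_abs _ _).trans ?_
    calc ∑ p ∈ P, |S p / (p : ℝ) ^ 2| ≤ ∑ p ∈ P, c := by
          refine sum_le_sum fun p hp => ?_
          haveI : NeZero p := ⟨(hP p hp).ne_zero⟩
          obtain ⟨hp1, hpy⟩ := hpr p hp
          have g1 : |S p| ≤ c * p := by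
            rw [← hS p hp]
            refine (abs_sum_le_sum_abs _ _).trans (le_trans (sum_le_sum fun x _ =>
              abs_sum_le_sum_abs _ _) (hA p hp))
          rw [abs_div, abs_of_nonneg (by positivity : (0 : ℝ) ≤ (p : ℝ) ^ 2),
            div_le_iff₀ (by positivity)]
          refine g1.trans (mul_le_mul_of_nonneg_left ?_ hc0)
          exact le_self_pow₀ hp1 two_ne_zero
      _ = P.card * c := by rw [sum_const, nsmul_eq_mul]
      _ ≤ _ := by nlinarith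
  have hmain := turan_abs (Ioc a (a + K) ×ˢ Ioc b (b + L)) P
    (fun p t => h p (t.1 : ZMod p) (t.2 : ZMod p)) (fun p => S p / (p : ℝ) ^ 2) ((K : ℝ) * L)
    (c * (K + L + y)) (c ^ 2 * (K + L + y ^ 2))
    (fun p => 4 * c ^ 2 * ((K : ℝ) * L) * (1 / (p : ℝ))) hX (by positivity) h1 h2 h3
  refine hmain.trans ?_
  rw [← mul_sum]
  obtain ⟨V1, hV⟩ : ∃ V1, V1 = ∑ p ∈ P, 1 / (p : ℝ) := ⟨_, rfl⟩
  have hV0 : 0 ≤ V1 := by
    rw [hV]
    exact sum_nonneg fun p _ => by positivity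
  rw [← hV]
  have y2 : (1 : ℝ) ≤ (y : ℝ) ^ 2 := one_le_pow₀ hy1r
  have k1 : (y : ℝ) ^ 2 * K ≤ K * L := by
    have : (y : ℝ) ^ 2 ≤ L := by nlinarith
    nlinarith
  have k2 : (y : ℝ) ^ 2 * L ≤ K * L := by
    have : (y : ℝ) ^ 2 ≤ K := by nlinarith
    nlinarith
  have k3 : (y : ℝ) ^ 4 ≤ K * L := by
    have : (1 : ℝ) ≤ L := by nlinarith
    nlinarith
  have l1 : (P.card : ℝ) ^ 2 * (c ^ 2 * (K + L + y ^ 2)) ≤ 3 * c ^ 2 * ((K : ℝ) * L) := by
    have m1 : (P.card : ℝ) ^ 2 ≤ (y : ℝ) ^ 2 := pow_le_pow_left₀ (Nat.cast_nonneg _) hcardr 2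
    calc (P.card : ℝ) ^ 2 * (c ^ 2 * (K + L + y ^ 2)) ≤ (y : ℝ) ^ 2 * (c ^ 2 * (K + L + y ^ 2)) :=
          mul_le_mul_of_nonneg_right m1 (by positivity)
      _ = c ^ 2 * ((y : ℝ) ^ 2 * K + (y : ℝ) ^ 2 * L + (y : ℝ) ^ 4) := by ring
      _ ≤ c ^ 2 * (3 * ((K : ℝ) * L)) := mul_le_mul_of_nonneg_left (by linarith) (by positivity)
      _ = _ := by ring
  have l2 : 2 * |∑ p ∈ P, S p / (p : ℝ) ^ 2| * (P.card * (c * (K + L + y))) ≤
      6 * c ^ 2 * ((K : ℝ) * L) := by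
    have m1 : (P.card : ℝ) * (c * (K + L + y)) ≤ y * (c * (K + L + y)) :=
      mul_le_mul_of_nonneg_right hcardr (by positivity)
    calc 2 * |∑ p ∈ P, S p / (p : ℝ) ^ 2| * (P.card * (c * (K + L + y)))
        ≤ 2 * (c * y) * (y * (c * (K + L + y))) :=
          mul_le_mul (mul_le_mul_of_nonneg_left hM (by norm_num)) m1 (by positivity)
            (by positivity)
      _ = 2 * c ^ 2 * ((y : ℝ) ^ 2 * K + (y : ℝ) ^ 2 * L + (y : ℝ) ^ 2 * y) := by ring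
      _ ≤ 2 * c ^ 2 * (3 * ((K : ℝ) * L)) := by
        refine mul_le_mul_of_nonneg_left ?_ (by positivity)
        have : (y : ℝ) ^ 2 * y ≤ (y : ℝ) ^ 4 := by
          rw [← pow_succ]
          exact pow_le_pow_right₀ hy1r (by norm_num)
        linarith
      _ = _ := by ring
  have q1 := mul_nonneg (mul_nonneg (sq_nonneg c) (mul_nonneg hK0 hL0)) hV0
  have q2 := mul_nonneg (sq_nonneg c) (mul_nonneg hK0 hL0)
  linarith

end Pool.Agent.R421.NR
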