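import Mathlib
import Pool.Agent.R421.NR.Tur
import Pool.Agent.R421.HF.MdlG

/-!
# Project NR: densities
-/

set_option autoImplicit false
set_option linter.all false

namespace Pool.Agent.R421.NR

open Finset

open Pool.Agent.W262.RK (PS Jr)

/-- the bound for the primes -/
def yT (T : ℕ) : ℕ := Nat.sqrt (Nat.sqrt T)

lemma yT_pow (T : ℕ) : yT T ^ 4 ≤ T := by
  have h1 : yT T ^ 2 ≤ Nat.sqrt T := by
    rw [pow_two]
    exact Nat.sqrt_le _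
  have h2 : Nat.sqrt T ^ 2 ≤ T := by
    rw [pow_two]
    exact Nat.sqrt_le _
  calc yT T ^ 4 = (yT T ^ 2) ^ 2 := by ring
    _ ≤ Nat.sqrt T ^ 2 := Nat.pow_le_pow_left h1 2
    _ ≤ T := h2

lemma lt_yT (T : ℕ) : T < (yT T + 1) ^ 4 := by
  have h1 : Nat.sqrt T < (yT T + 1) ^ 2 := Nat.lt_succ_sqrt' _
  have h2 : T < (Nat.sqrt T + 1) ^ 2 := Nat.lt_succ_sqrt' _
  calc T < (Nat.sqrt T + 1) ^ 2 := h2
    _ ≤ ((yT T + 1) ^ 2) ^ 2 := Nat.pow_le_pow_left (by omega) 2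
    _ = _ := by ring

lemma yT_large (z : ℕ) {T : ℕ} (h : (z + 1) ^ 4 ≤ T) : z < yT T := by
  have h1 := lt_yT T
  have h2 : (z + 1) ^ 4 < (yT T + 1) ^ 4 := by omega
  have h3 : z + 1 < yT T + 1 := lt_of_pow_lt_pow_left₀ 4 (by omega) h2
  omega

/-- `T ≤ y ^ 8` -/
lemma le_yT {T : ℕ} (h : 81 ≤ T) : T ≤ yT T ^ 8 := by
  have h1 : 2 < yT T := yT_large 2 (by norm_num; exact h)
  have h2 := lt_yT T
  have h3 : yT T + 1 ≤ yT T ^ 2 := by nlinarith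
  calc T ≤ (yT T + 1) ^ 4 := h2.le
    _ ≤ (yT T ^ 2) ^ 4 := Nat.pow_le_pow_left h3 4
    _ = _ := by ring

lemma loglog_yT {T : ℕ} (h : 81 ≤ T) : Real.log (Real.log (yT T)) ≤ Real.log (Real.log T) ∧
    Real.log (Real.log T) ≤ Real.log (Real.log (yT T)) + 3 := by
  have h1 : 2 < yT T := yT_large 2 (by norm_num; exact h)
  have h2 : yT T ≤ T := (Nat.le_self_pow (by norm_num) _).trans (yT_pow T)
  have hy : (3 : ℝ) ≤ yT T := by exact_mod_cast h1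
  have hyT : (yT T : ℝ) ≤ T := by exact_mod_cast h2
  have hT8 : (T : ℝ) ≤ (yT T : ℝ) ^ 8 := by exact_mod_cast le_yT h
  have hl : 0 < Real.log (yT T) := Real.log_pos (by linarith)
  have hT : (0 : ℝ) < T := by linarith
  have l1 : Real.log (yT T) ≤ Real.log T := Real.log_le_log (by linarith) hyT
  have l2 : Real.log T ≤ 8 * Real.log (yT T) := by
    have := Real.log_le_log hT hT8
    rwa [Real.log_pow] at this
  constructor
  · exact Real.log_le_log hl l1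
  · have l3 := Real.log_le_log (by linarith) l2
    rw [Real.log_mul (by norm_num) hl.ne'] at l3
    have l4 : Real.log 8 ≤ 3 := by
      have : (8 : ℝ) = 2 ^ 3 := by norm_num
      rw [this, Real.log_pow]
      have := Real.log_two_lt_d9
      push_cast
      linarith
    linarith

lemma big_ll (K : ℝ) : ∃ M3 : ℕ, ∀ M : ℕ, M3 ≤ M → K ≤ Real.log (Real.log M) := by
  have h1 : Filter.Tendsto (fun M : ℕ => Real.log (Real.log M)) Filter.atTop Filter.atTop :=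
    Real.tendsto_log_atTop.comp (Real.tendsto_log_atTop.comp tendsto_natCast_atTop_atTop)
  exact Filter.eventually_atTop.1 (h1.eventually_ge_atTop K)

open Classical in
/-- **the normal order** -/
theorem dens2 (h : ∀ p : ℕ, ZMod p → ZMod p → ℝ) (z : ℕ) (hz : 10 ≤ z)
    (c : ℝ) (hc : 1 ≤ c) (S : ℕ → ℝ)
    (hS : ∀ p, p.Prime → z < p → ∀ [NeZero p], ∑ x : ZMod p, ∑ y : ZMod p, h p x y = S p)
    (hA : ∀ p, p.Prime → z < p → ∀ [NeZero p], ∑ x : ZMod p, ∑ y : ZMod p, |h p x y| ≤ c * p)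
    (hb : ∀ p x y, |h p x y| ≤ c) (C1 : ℝ)
    (hM : ∀ y, z < y → |∑ p ∈ PS z y, S p / (p : ℝ) ^ 2 - 1 / 2 * Real.log (Real.log y)| ≤ C1)
    (δ ε : ℝ) (hδ : 0 < δ) (hε : 0 < ε) :
    ∃ T0 : ℕ, ∀ T : ℕ, T0 ≤ T → ∀ (a b : ℤ) (K L : ℕ), T ≤ K → T ≤ L →
      (((Ioc a (a + K) ×ˢ Ioc b (b + L)).filter (fun t : ℤ × ℤ =>
        ¬ |∑ p ∈ PS z (yT T), h p (t.1 : ZMod p) (t.2 : ZMod p) -
          1 / 2 * Real.log (Real.log T)| ≤ δ * Real.log (Real.log T))).card : ℝ) ≤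
        ε * ((K : ℝ) * L) := by
  obtain ⟨C2, hC2⟩ := Pool.Agent.Y776.Z8.mert z hz
  obtain ⟨M1, hM1⟩ := big_ll (|C2| + 1 + 2 * (|C1| + 2) / δ + 128 * c ^ 2 / (ε * δ ^ 2))
  refine ⟨M1 + (z + 1) ^ 4 + 81, fun T hT a b K L hK hL => ?_⟩
  have hl := hM1 T (by omega)
  obtain ⟨l1, l2⟩ := loglog_yT (T := T) (by omega)
  have hzy : z < yT T := yT_large z (by omega)
  obtain ⟨ℓ, hℓ⟩ : ∃ ℓ, ℓ = Real.log (Real.log T) := ⟨_, rfl⟩
  rw [← hℓ] at hl l1 l2 ⊢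
  have q1 : 0 ≤ 2 * (|C1| + 2) / δ := by positivity
  have q2 : 0 ≤ 128 * c ^ 2 / (ε * δ ^ 2) := by positivity
  have q3 : 0 ≤ |C2| := abs_nonneg _
  have r1 : 2 * (|C1| + 2) / δ ≤ ℓ := by linarith
  have r2 : 128 * c ^ 2 / (ε * δ ^ 2) ≤ ℓ := by linarith
  have r3 : |C2| + 1 ≤ ℓ := by linarith
  have hℓ0 : 0 < ℓ := by linarith
  have m1 := hC2 (yT T) hzy
  have m2 := hM (yT T) hzy
  have hbox := turan h (PS z (yT T)) (fun p hp => by
      unfold PS at hp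
      exact (mem_filter.1 hp).2) c hc S
    (fun p hp => by
      unfold PS at hp
      rw [mem_filter, mem_Ioc] at hp
      exact hS p hp.2 hp.1.1)
    (fun p hp => by
      unfold PS at hp
      rw [mem_filter, mem_Ioc] at hp
      exact hA p hp.2 hp.1.1) hb (yT T)
    (fun p hp => by
      unfold PS at hp
      rw [mem_filter, mem_Ioc] at hp
      exact hp.1.2) (by omega) a b K L ((yT_pow T).trans hK) ((yT_pow T).trans hL)
  obtain ⟨M, hMd⟩ : ∃ M, M = ∑ p ∈ PS z (yT T), S p / (p : ℝ) ^ 2 := ⟨_, rfl⟩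
  rw [← hMd] at hbox m2
  obtain ⟨Bd, hBd⟩ : ∃ Bd, Bd = (Ioc a (a + K) ×ˢ Ioc b (b + L)).filter (fun t : ℤ × ℤ =>
        ¬ |∑ p ∈ PS z (yT T), h p (t.1 : ZMod p) (t.2 : ZMod p) -
          1 / 2 * ℓ| ≤ δ * ℓ) := ⟨_, rfl⟩
  rw [← hBd]
  have e1 : (Bd.card : ℝ) * (δ / 2 * ℓ) ^ 2 ≤ 16 * c ^ 2 * ((K : ℝ) * L) * (2 * ℓ) := by
    calc (Bd.card : ℝ) * (δ / 2 * ℓ) ^ 2 = ∑ t ∈ Bd, (δ / 2 * ℓ) ^ 2 := by
          rw [sum_const, nsmul_eq_mul]
      _ ≤ ∑ t ∈ Bd, (∑ p ∈ PS z (yT T), h p (t.1 : ZMod p) (t.2 : ZMod p) - M) ^ 2 := by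
        refine sum_le_sum fun t ht => ?_
        rw [hBd, mem_filter, not_le] at ht
        have h1 := ht.2
        obtain ⟨Q, hQ⟩ : ∃ Q, Q = ∑ p ∈ PS z (yT T), h p (t.1 : ZMod p) (t.2 : ZMod p) :=
          ⟨_, rfl⟩
        rw [← hQ] at h1 ⊢
        have h2 : |Q - 1 / 2 * ℓ| ≤ |Q - M| + |M - 1 / 2 * ℓ| := by
          have : Q - 1 / 2 * ℓ = (Q - M) + (M - 1 / 2 * ℓ) := by ring
          rw [this]
          exact abs_add_le _ _
        have h3 : |M - 1 / 2 * ℓ| ≤ |C1| + 2 := by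
          have h4 := abs_le.1 (m2.trans (le_abs_self C1))
          rw [abs_le]
          constructor <;> linarith [h4.1, h4.2]
        have h5 : |C1| + 2 ≤ δ / 2 * ℓ := by
          rw [div_le_iff₀ hδ] at r1
          linarith
        have h6 : δ / 2 * ℓ ≤ |Q - M| := by linarith
        rw [← sq_abs (Q - M)]
        exact pow_le_pow_left₀ (by positivity) h6 2
      _ ≤ _ := by
        refine sum_le_sum_of_subset_of_nonneg ?_ fun _ _ _ => sq_nonneg _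
        rw [hBd]
        exact filter_subset _ _
      _ ≤ _ := hbox
      _ ≤ _ := by
        refine mul_le_mul_of_nonneg_left ?_ (by positivity)
        have := (abs_le.1 (m1.trans (le_abs_self C2))).2
        linarith
  have e2 : 16 * c ^ 2 * (2 * ℓ) ≤ ε * (δ / 2 * ℓ) ^ 2 := by
    rw [div_le_iff₀ (by positivity)] at r2
    have : ε * (δ / 2 * ℓ) ^ 2 = ℓ * (ε * δ ^ 2) * ℓ / 4 := by ring
    rw [this]
    have h7 : 128 * c ^ 2 * ℓ ≤ ℓ * (ε * δ ^ 2) * ℓ := mul_le_mul_of_nonneg_right r2 hℓ0.le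
    linarith
  have e3 : (Bd.card : ℝ) * (δ / 2 * ℓ) ^ 2 ≤ (ε * ((K : ℝ) * L)) * (δ / 2 * ℓ) ^ 2 := by
    refine e1.trans ?_
    have hKL : (0 : ℝ) ≤ (K : ℝ) * L := by positivity
    nlinarith
  exact le_of_mul_le_mul_right e3 (by positivity)

/-! ### Characters -/

lemma sum_inv_sq (z y : ℕ) (hz : 1 ≤ z) : ∑ p ∈ PS z y, 1 / (p : ℝ) ^ 2 ≤ 1 := by
  by_cases hzy : z ≤ y
  · have h1 : ∑ p ∈ PS z y, 1 / (p : ℝ) ^ 2 ≤ ∑ p ∈ Ioc z y, ((p : ℝ) ^ 2)⁻¹ := by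
      unfold PS
      refine (sum_le_sum_of_subset_of_nonneg (filter_subset _ _) fun _ _ _ => by positivity).trans
        (le_of_eq (sum_congr rfl fun p _ => one_div _))
    have h2 := sum_Ioc_inv_sq_le_sub (α := ℝ) (k := z) (n := y) (by omega) hzy
    have h3 : ((z : ℝ))⁻¹ ≤ 1 := inv_le_one_of_one_le₀ (by exact_mod_cast hz)
    have h4 : (0 : ℝ) ≤ ((y : ℝ))⁻¹ := by positivity
    linarith
  · have : PS z y = ∅ := by
      unfold PS
      rw [Ioc_eq_empty (by omega), filter_empty]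
    rw [this, sum_empty]
    norm_num

lemma Jr_abs (κ : ℤ) (p : ℕ) : |Jr κ p| ≤ 1 := by
  unfold Jr
  rcases jacobiSym.trichotomy κ p with h | h | h <;> rw [h] <;> norm_num

/-- **the mean** -/
theorem mean2 (z : ℕ) (hz : 10 ≤ z) (K : Finset ℤ) (hK : ∀ κ ∈ K, ∀ r : ℤ, r ^ 2 ≠ κ)
    (a : ℤ → ℝ) : ∃ C : ℝ, ∀ y, z < y →
    |∑ p ∈ PS z y, ((p : ℝ) - 1) * (1 / 2 + ∑ κ ∈ K, a κ * Jr κ p) / (p : ℝ) ^ 2 -
      1 / 2 * Real.log (Real.log y)| ≤ C := by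
  classical
  obtain ⟨CM, hM⟩ := Pool.Agent.Y776.Z8.mert z hz
  have hch : ∀ κ : ℤ, ∃ C : ℝ, 0 ≤ C ∧ (κ ∈ K → ∀ y, z < y →
      |∑ p ∈ PS z y, Jr κ p / (p : ℝ)| ≤ C) := by
    intro κ
    by_cases h : κ ∈ K
    · obtain ⟨C, hC0, hC⟩ := Pool.Agent.R421.HF.chrB κ (hK κ h) z (by omega)
      exact ⟨C, hC0, fun _ => hC⟩
    · exact ⟨0, le_rfl, fun h1 => absurd h1 h⟩
  choose CH hCH0 hCH using hch
  refine ⟨|CM| + ∑ κ ∈ K, |a κ| * CH κ + (1 / 2 + ∑ κ ∈ K, |a κ|), fun y hy => ?_⟩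
  have e1 : ∑ p ∈ PS z y, ((p : ℝ) - 1) * (1 / 2 + ∑ κ ∈ K, a κ * Jr κ p) / (p : ℝ) ^ 2 =
      1 / 2 * ∑ p ∈ PS z y, 1 / (p : ℝ) + ∑ κ ∈ K, a κ * ∑ p ∈ PS z y, Jr κ p / (p : ℝ) -
      ∑ p ∈ PS z y, (1 / 2 + ∑ κ ∈ K, a κ * Jr κ p) * (1 / (p : ℝ) ^ 2) := by
    rw [mul_sum, ← sum_congr rfl (fun κ _ => (mul_sum (PS z y) (fun p => Jr κ p / (p : ℝ))
      (a κ)).symm), sum_comm, ← sum_add_distrib, ← sum_sub_distrib]
    refine sum_congr rfl fun p hp => ?_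
    have hp0 : (p : ℝ) ≠ 0 := by
      unfold PS at hp
      rw [mem_filter] at hp
      exact_mod_cast hp.2.ne_zero
    have e2 : ∑ κ ∈ K, a κ * (Jr κ p / (p : ℝ)) = (∑ κ ∈ K, a κ * Jr κ p) / p := by
      rw [sum_div]
      exact sum_congr rfl fun κ _ => by ring
    rw [e2]
    field_simp
  have e2 : |∑ κ ∈ K, a κ * ∑ p ∈ PS z y, Jr κ p / (p : ℝ)| ≤ ∑ κ ∈ K, |a κ| * CH κ := by
    refine (abs_sum_le_sum_abs _ _).trans (sum_le_sum fun κ hκ => ?_)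
    rw [abs_mul]
    exact mul_le_mul_of_nonneg_left (hCH κ hκ y hy) (abs_nonneg _)
  have e3 : |∑ p ∈ PS z y, (1 / 2 + ∑ κ ∈ K, a κ * Jr κ p) * (1 / (p : ℝ) ^ 2)| ≤
      1 / 2 + ∑ κ ∈ K, |a κ| := by
    have f1 : 0 ≤ 1 / 2 + ∑ κ ∈ K, |a κ| :=
      add_nonneg (by norm_num) (sum_nonneg fun _ _ => abs_nonneg _)
    refine (abs_sum_le_sum_abs _ _).trans ?_
    calc ∑ p ∈ PS z y, |(1 / 2 + ∑ κ ∈ K, a κ * Jr κ p) * (1 / (p : ℝ) ^ 2)|
        ≤ ∑ p ∈ PS z y, (1 / 2 + ∑ κ ∈ K, |a κ|) * (1 / (p : ℝ) ^ 2) := by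
          refine sum_le_sum fun p _ => ?_
          have f2 : (0 : ℝ) ≤ 1 / (p : ℝ) ^ 2 := by positivity
          rw [abs_mul, abs_of_nonneg f2]
          refine mul_le_mul_of_nonneg_right ?_ f2
          refine (abs_add_le _ _).trans ?_
          rw [abs_of_nonneg (by norm_num : (0 : ℝ) ≤ 1 / 2)]
          refine add_le_add_right ((abs_sum_le_sum_abs _ _).trans (sum_le_sum fun κ _ => ?_)) _
          rw [abs_mul]
          exact mul_le_of_le_one_right (abs_nonneg _) (Jr_abs κ p)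
      _ = (1 / 2 + ∑ κ ∈ K, |a κ|) * ∑ p ∈ PS z y, 1 / (p : ℝ) ^ 2 := (mul_sum _ _ _).symm
      _ ≤ (1 / 2 + ∑ κ ∈ K, |a κ|) * 1 :=
        mul_le_mul_of_nonneg_left (sum_inv_sq z y (by omega)) f1
      _ = _ := mul_one _
  rw [e1]
  have e4 := abs_le.1 ((hM y hy).trans (le_abs_self CM))
  have e5 := abs_le.1 e2
  have e6 := abs_le.1 e3
  have e7 : 0 ≤ |CM| := abs_nonneg _
  rw [abs_le]
  constructor <;> linarith [e4.1, e4.2, e5.1, e5.2, e6.1, e6.2]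

/-! ### Large primes -/

/-- the number of the large prime factors -/
lemma large_card {N : ℤ} (hN : N ≠ 0) {y k : ℕ} (hy : 2 ≤ y) (h : N.natAbs ≤ y ^ k) :
    (N.natAbs.primeFactors.filter (fun p => y < p)).card ≤ k := by
  have h1 : ∏ p ∈ N.natAbs.primeFactors.filter (fun p => y < p), p ≤ N.natAbs := by
    refine Nat.le_of_dvd (Int.natAbs_pos.2 hN) ?_
    exact (prod_dvd_prod_of_subset _ _ _ (filter_subset _ _)).trans
      (Nat.prod_primeFactors_dvd _)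
  have h2 : y ^ (N.natAbs.primeFactors.filter (fun p => y < p)).card ≤
      ∏ p ∈ N.natAbs.primeFactors.filter (fun p => y < p), p := by
    rw [← prod_const]
    exact prod_le_prod' fun p hp => (mem_filter.1 hp).2.le
  exact (Nat.pow_le_pow_iff_right (by omega)).1 (h2.trans (h1.trans h))

/-! ### Classes in intervals -/

lemma cls_le (N : ℕ) (hN : 0 < N) (a : ℤ) (K : ℕ) (hK : N ≤ K) (v : ℤ) :
    (((Ioc a (a + K)).filter (fun m : ℤ => (N : ℤ) ∣ m - v)).card : ℝ) ≤ 2 * K / N := by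
  have h := (abs_le.1 (cnt_cls N hN a K (v : ZMod N))).2
  have e0 : (Ioc a (a + K)).filter (fun m : ℤ => (N : ℤ) ∣ m - v) =
      (Ioc a (a + K)).filter (fun m : ℤ => (m : ZMod N) = (v : ZMod N)) := by
    refine filter_congr fun m _ => ?_
    rw [eq_comm, ZMod.intCast_eq_intCast_iff, Int.modEq_iff_dvd]
  rw [e0]
  have hNr : (0 : ℝ) < N := by exact_mod_cast hN
  have h1 : (1 : ℝ) ≤ K / N := by
    rw [le_div_iff₀ hNr, one_mul]
    exact_mod_cast hK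
  have h2 : 2 * (K : ℝ) / N = K / N + K / N := by ring
  rw [h2]
  linarith

end Pool.Agent.R421.NR
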