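import Mathlib
import Pool.Agent.R421.NR.Dens

/-!
# Project NR: the local weights
-/

set_option autoImplicit false
set_option linter.all false

namespace Pool.Agent.R421.NR

open Finset

open Pool.Agent.W262.RK (PS Jr)

open Classical in
/-- the indicator of `y² = c x²`, `x ≠ 0` -/
noncomputable def qi (c : ℤ) (p : ℕ) (x y : ZMod p) : ℝ :=
  if y ^ 2 = (c : ZMod p) * x ^ 2 ∧ x ≠ 0 then 1 else 0

open Classical in
/-- the weight for coprime pairs -/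
noncomputable def hm (κ : ℤ) (Cp Cm : Finset ℤ) (p : ℕ) (x y : ZMod p) : ℝ :=
  (if x = 0 ∧ y ≠ 0 then 1 else 0) +
  (if y = 0 ∧ x ≠ 0 ∧ jacobiSym κ p = 1 then 1 else 0) +
  ∑ c ∈ Cp, qi c p x y - ∑ c ∈ Cm, qi c p x y

open Classical in
/-- the indicator of `x = 0`, `y ≠ 0` a square -/
noncomputable def i4 (p : ℕ) (x y : ZMod p) : ℝ :=
  if x = 0 ∧ y ≠ 0 ∧ IsSquare y then 1 else 0

open Classical in
/-- the weight for the pairs `(s, t)` -/
noncomputable def h4 (p : ℕ) (x y : ZMod p) : ℝ :=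
  i4 p x y +
  (if x ^ 2 = 4 * y ∧ x ≠ 0 then 1 else 0) - (if y = 0 ∧ x ≠ 0 then 1 else 0)

section

variable {p : ℕ} [hp : Fact p.Prime]

lemma sum_ne_zero (f : ZMod p → ℝ) (c : ℝ) (h0 : f 0 = 0) (h1 : ∀ x, x ≠ 0 → f x = c) :
    ∑ x, f x = ((p : ℝ) - 1) * c := by
  classical
  rw [← add_sum_erase univ f (mem_univ 0), h0, zero_add,
    sum_congr rfl fun x hx => h1 x (ne_of_mem_erase hx), sum_const, card_erase_of_mem (mem_univ _),
    card_univ, ZMod.card, nsmul_eq_mul, Nat.cast_sub hp.out.one_lt.le, Nat.cast_one]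

lemma two_ne (h2 : p ≠ 2) : (2 : ZMod p) ≠ 0 := by
  intro h
  have h1 : ((2 : ℕ) : ZMod p) = 0 := by exact_mod_cast h
  rw [ZMod.natCast_eq_zero_iff] at h1
  exact h2 ((Nat.prime_dvd_prime_iff_eq hp.out Nat.prime_two).1 h1)

lemma rc (h2 : p ≠ 2) : ringChar (ZMod p) ≠ 2 := by
  rw [ZMod.ringChar_zmod_n]
  exact h2

lemma sqrts (h2 : p ≠ 2) (a : ZMod p) :
    ∑ y : ZMod p, (if y ^ 2 = a then (1 : ℝ) else 0) = 1 + (quadraticChar (ZMod p) a : ℝ) := by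
  classical
  have h := quadraticChar_card_sqrts (rc h2) a
  rw [sum_boole]
  have e : {x : ZMod p | x ^ 2 = a}.toFinset = univ.filter (fun x : ZMod p => x ^ 2 = a) := by
    ext x
    simp
  rw [e] at h
  have h' : (((univ.filter (fun x : ZMod p => x ^ 2 = a)).card : ℤ) : ℝ) =
      ((quadraticChar (ZMod p) a + 1 : ℤ) : ℝ) := by rw [h]
  push_cast at h'
  rw [h']
  ring

lemma Jr_quad (c : ℤ) : Jr c p = (quadraticChar (ZMod p) (c : ZMod p) : ℝ) := by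
  unfold Jr
  rw [← jacobiSym.legendreSym.to_jacobiSym]
  rfl

/-- the sum of the indicators -/
lemma qi_sum (h2 : p ≠ 2) (c : ℤ) (hc : ¬ (p : ℤ) ∣ c) :
    ∑ x : ZMod p, ∑ y : ZMod p, qi c p x y = ((p : ℝ) - 1) * (1 + Jr c p) := by
  classical
  apply sum_ne_zero
  · refine sum_eq_zero fun y _ => ?_
    unfold qi
    rw [if_neg]
    rintro ⟨_, h⟩
    exact h rfl
  · intro x hx
    rw [Jr_quad]
    have e : ∀ y : ZMod p, qi c p x y = if y ^ 2 = (c : ZMod p) * x ^ 2 then (1 : ℝ) else 0 := by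
      intro y
      unfold qi
      by_cases h : y ^ 2 = (c : ZMod p) * x ^ 2
      · rw [if_pos h, if_pos ⟨h, hx⟩]
      · rw [if_neg h, if_neg fun h' => h h'.1]
    rw [sum_congr rfl fun y _ => e y, sqrts h2, map_mul, quadraticChar_sq_one' hx, mul_one]

lemma qi_nonneg (c : ℤ) (x y : ZMod p) : 0 ≤ qi c p x y := by
  unfold qi
  split_ifs <;> norm_num

end

lemma qi_abs (c : ℤ) (p : ℕ) (x y : ZMod p) : |qi c p x y| ≤ 1 := by
  unfold qi
  split_ifs <;> norm_num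

lemma hm_abs (κ : ℤ) (Cp Cm : Finset ℤ) (p : ℕ) (x y : ZMod p) :
    |hm κ Cp Cm p x y| ≤ 2 + 2 * Cp.card + 2 * Cm.card := by
  classical
  unfold hm
  have h1 : |(if x = 0 ∧ y ≠ 0 then (1 : ℝ) else 0)| ≤ 1 := by split_ifs <;> norm_num
  have h2 : |(if y = 0 ∧ x ≠ 0 ∧ jacobiSym κ p = 1 then (1 : ℝ) else 0)| ≤ 1 := by
    split_ifs <;> norm_num
  have h3 : ∀ C : Finset ℤ, |∑ c ∈ C, qi c p x y| ≤ C.card := by
    intro C
    refine (abs_sum_le_sum_abs _ _).trans ?_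
    refine (sum_le_sum fun c _ => qi_abs c p x y).trans (le_of_eq ?_)
    rw [sum_const, nsmul_eq_mul, mul_one]
  have h4 := h3 Cp
  have h5 := h3 Cm
  have h6 : (0 : ℝ) ≤ Cp.card := Nat.cast_nonneg _
  have h7 : (0 : ℝ) ≤ Cm.card := Nat.cast_nonneg _
  rw [abs_le] at *
  constructor <;> linarith [h1.1, h1.2, h2.1, h2.2, h4.1, h4.2, h5.1, h5.2]

section

variable {p : ℕ} [hp : Fact p.Prime]

lemma ind1 : ∑ x : ZMod p, ∑ y : ZMod p, (if x = 0 ∧ y ≠ 0 then (1 : ℝ) else 0) = (p : ℝ) - 1 := by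
  classical
  rw [sum_comm, ← mul_one ((p : ℝ) - 1)]
  apply sum_ne_zero
  · refine sum_eq_zero fun y _ => ?_
    rw [if_neg]
    rintro ⟨_, h⟩
    exact h rfl
  · intro y hy
    rw [sum_eq_single 0]
    · rw [if_pos ⟨rfl, hy⟩]
    · intro x _ hx
      rw [if_neg fun h => hx h.1]
    · intro h
      exact absurd (mem_univ _) h

lemma ind2 (κ : ℤ) (hκ : ¬ (p : ℤ) ∣ κ) : ∑ x : ZMod p, ∑ y : ZMod p,
    (if y = 0 ∧ x ≠ 0 ∧ jacobiSym κ p = 1 then (1 : ℝ) else 0) =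
      ((p : ℝ) - 1) * ((1 + Jr κ p) / 2) := by
  classical
  apply sum_ne_zero
  · refine sum_eq_zero fun y _ => ?_
    rw [if_neg]
    rintro ⟨_, h, _⟩
    exact h rfl
  · intro x hx
    have h6 : jacobiSym κ p = 1 ∨ jacobiSym κ p = -1 := by
      have e0 : (κ : ZMod p) ≠ 0 := fun h => hκ ((ZMod.intCast_zmod_eq_zero_iff_dvd _ _).1 h)
      rw [← jacobiSym.legendreSym.to_jacobiSym]
      exact legendreSym.eq_one_or_neg_one p e0
    rw [sum_eq_single 0]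
    · unfold Jr
      rcases h6 with h6 | h6
      · rw [if_pos ⟨rfl, hx, h6⟩, h6]
        norm_num
      · rw [if_neg, h6]
        · norm_num
        · rintro ⟨_, _, h⟩
          rw [h6] at h
          norm_num at h
    · intro y _ hy
      rw [if_neg fun h => hy h.1]
    · intro h
      exact absurd (mem_univ _) h

lemma qi_sums (h2 : p ≠ 2) (C : Finset ℤ) (hC : ∀ c ∈ C, ¬ (p : ℤ) ∣ c) :
    ∑ x : ZMod p, ∑ y : ZMod p, ∑ c ∈ C, qi c p x y =
      ((p : ℝ) - 1) * ∑ c ∈ C, (1 + Jr c p) := by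
  have e1 : ∀ x : ZMod p, ∑ y : ZMod p, ∑ c ∈ C, qi c p x y =
      ∑ c ∈ C, ∑ y : ZMod p, qi c p x y := fun x => sum_comm
  have e2 : ∑ x : ZMod p, ∑ c ∈ C, ∑ y : ZMod p, qi c p x y =
      ∑ c ∈ C, ∑ x : ZMod p, ∑ y : ZMod p, qi c p x y := sum_comm
  have e3 : ∑ c ∈ C, ∑ x : ZMod p, ∑ y : ZMod p, qi c p x y =
      ∑ c ∈ C, ((p : ℝ) - 1) * (1 + Jr c p) :=
    sum_congr rfl fun c hc => qi_sum h2 c (hC c hc)
  rw [sum_congr rfl fun x _ => e1 x, e2, e3, mul_sum]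

/-- the sum of the weights -/
theorem hm_sum (h2 : p ≠ 2) (κ : ℤ) (Cp Cm : Finset ℤ) (hκ : ¬ (p : ℤ) ∣ κ)
    (hp1 : ∀ c ∈ Cp, ¬ (p : ℤ) ∣ c) (hm1 : ∀ c ∈ Cm, ¬ (p : ℤ) ∣ c) :
    ∑ x : ZMod p, ∑ y : ZMod p, hm κ Cp Cm p x y =
      ((p : ℝ) - 1) * (1 + (1 + Jr κ p) / 2 + ∑ c ∈ Cp, (1 + Jr c p) -
        ∑ c ∈ Cm, (1 + Jr c p)) := by
  classical
  have e : ∀ C : Finset ℤ, (∀ c ∈ C, ¬ (p : ℤ) ∣ c) →
      ∑ x : ZMod p, ∑ y : ZMod p, ∑ c ∈ C, qi c p x y =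
        ((p : ℝ) - 1) * ∑ c ∈ C, (1 + Jr c p) := fun C hC => qi_sums h2 C hC
  unfold hm
  simp only [sum_sub_distrib, sum_add_distrib]
  rw [e Cp hp1, e Cm hm1]
  have i1 := ind1 (p := p)
  have i2 := ind2 (p := p) κ hκ
  rw [i1, i2]
  simp only [sum_add_distrib]
  ring

/-- the sum of the absolute values -/
theorem hm_sum_abs (h2 : p ≠ 2) (κ : ℤ) (Cp Cm : Finset ℤ) (hκ : ¬ (p : ℤ) ∣ κ)
    (hp1 : ∀ c ∈ Cp, ¬ (p : ℤ) ∣ c) (hm1 : ∀ c ∈ Cm, ¬ (p : ℤ) ∣ c) :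
    ∑ x : ZMod p, ∑ y : ZMod p, |hm κ Cp Cm p x y| ≤ (2 + 2 * Cp.card + 2 * Cm.card) * p := by
  classical
  have e : ∀ C : Finset ℤ, (∀ c ∈ C, ¬ (p : ℤ) ∣ c) →
      ∑ x : ZMod p, ∑ y : ZMod p, ∑ c ∈ C, qi c p x y ≤ 2 * C.card * p := by
    intro C hC
    have e1 : ∑ x : ZMod p, ∑ y : ZMod p, ∑ c ∈ C, qi c p x y =
        ((p : ℝ) - 1) * ∑ c ∈ C, (1 + Jr c p) := qi_sums h2 C hC
    rw [e1]
    have e2 : ∑ c ∈ C, (1 + Jr c p) ≤ 2 * C.card := by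
      calc ∑ c ∈ C, (1 + Jr c p) ≤ ∑ c ∈ C, 2 := sum_le_sum fun c _ => by
            have := (abs_le.1 (Jr_abs c p)).2
            linarith
        _ = _ := by rw [sum_const, nsmul_eq_mul]; ring
    have e3 : (0 : ℝ) ≤ (p : ℝ) - 1 := by
      have : (1 : ℝ) ≤ p := by exact_mod_cast hp.out.one_lt.le
      linarith
    have e4 : (0 : ℝ) ≤ 2 * C.card := by positivity
    calc ((p : ℝ) - 1) * ∑ c ∈ C, (1 + Jr c p) ≤ ((p : ℝ) - 1) * (2 * C.card) :=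
          mul_le_mul_of_nonneg_left e2 e3
      _ ≤ _ := by nlinarith
  have i1 := ind1 (p := p)
  have i2 := ind2 (p := p) κ hκ
  have hle : ∀ x y : ZMod p, |hm κ Cp Cm p x y| ≤ (if x = 0 ∧ y ≠ 0 then (1 : ℝ) else 0) +
      (if y = 0 ∧ x ≠ 0 ∧ jacobiSym κ p = 1 then (1 : ℝ) else 0) +
      ∑ c ∈ Cp, qi c p x y + ∑ c ∈ Cm, qi c p x y := by
    intro x y
    unfold hm
    have k1 : 0 ≤ (if x = 0 ∧ y ≠ 0 then (1 : ℝ) else 0) := by split_ifs <;> norm_num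
    have k2 : 0 ≤ (if y = 0 ∧ x ≠ 0 ∧ jacobiSym κ p = 1 then (1 : ℝ) else 0) := by
      split_ifs <;> norm_num
    have k3 : 0 ≤ ∑ c ∈ Cp, qi c p x y := sum_nonneg fun c _ => qi_nonneg c x y
    have k4 : 0 ≤ ∑ c ∈ Cm, qi c p x y := sum_nonneg fun c _ => qi_nonneg c x y
    rw [abs_le]
    constructor <;> linarith
  refine (sum_le_sum fun x _ => sum_le_sum fun y _ => hle x y).trans ?_
  simp only [sum_add_distrib]
  rw [i1, i2]
  have j1 := e Cp hp1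
  have j2 := e Cm hm1
  have j3 := (abs_le.1 (Jr_abs κ p)).2
  have j4 : (1 : ℝ) ≤ p := by exact_mod_cast hp.out.one_lt.le
  have j5 : ((p : ℝ) - 1) * ((1 + Jr κ p) / 2) ≤ ((p : ℝ) - 1) * 1 :=
    mul_le_mul_of_nonneg_left (by linarith) (by linarith)
  linarith

/-! ### The weight for the points of order four -/

lemma sq_cnt (h2 : p ≠ 2) : ∑ y : ZMod p, (if y ≠ 0 ∧ IsSquare y then (1 : ℝ) else 0) =
    ((p : ℝ) - 1) / 2 := by
  classical
  have e : ∀ y : ZMod p, (if y ≠ 0 ∧ IsSquare y then (1 : ℝ) else 0) =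
      ((quadraticChar (ZMod p) y : ℝ) + (if y ≠ 0 then 1 else 0)) / 2 := by
    intro y
    by_cases h0 : y = 0
    · subst h0
      simp
    · by_cases hs : IsSquare y
      · rw [if_pos ⟨h0, hs⟩, if_pos h0, (quadraticChar_one_iff_isSquare h0).2 hs]
        norm_num
      · rw [if_neg fun h => hs h.2, if_pos h0, quadraticChar_neg_one_iff_not_isSquare.2 hs]
        norm_num
  rw [sum_congr rfl fun y _ => e y, ← sum_div, sum_add_distrib]
  have h1 : ∑ y : ZMod p, (quadraticChar (ZMod p) y : ℝ) = 0 := by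
    have := quadraticChar_sum_zero (rc (p := p) h2)
    exact_mod_cast this
  have h3 : ∑ y : ZMod p, (if y ≠ 0 then (1 : ℝ) else 0) = ((p : ℝ) - 1) * 1 := by
    apply sum_ne_zero
    · rw [if_neg]
      exact fun h => h rfl
    · intro y hy
      rw [if_pos hy]
  rw [h1, h3]
  ring

lemma h4_ind1 (h2 : p ≠ 2) : ∑ x : ZMod p, ∑ y : ZMod p, i4 p x y = ((p : ℝ) - 1) / 2 := by
  classical
  rw [sum_eq_single (0 : ZMod p)]
  · rw [← sq_cnt h2]
    refine sum_congr rfl fun y _ => ?_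
    unfold i4
    by_cases h : y ≠ 0 ∧ IsSquare y
    · rw [if_pos h, if_pos ⟨rfl, h⟩]
    · rw [if_neg h, if_neg fun h' => h h'.2]
  · intro x _ hx
    exact sum_eq_zero fun y _ => if_neg fun h => hx h.1
  · intro h
    exact absurd (mem_univ _) h

lemma h4_ind2 (h2 : p ≠ 2) : ∑ x : ZMod p, ∑ y : ZMod p,
    (if x ^ 2 = 4 * y ∧ x ≠ 0 then (1 : ℝ) else 0) = (p : ℝ) - 1 := by
  classical
  have h22 := two_ne h2
  have h44 : (4 : ZMod p) ≠ 0 := by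
    have : (4 : ZMod p) = 2 * 2 := by norm_num
    rw [this]
    exact mul_ne_zero h22 h22
  rw [← mul_one ((p : ℝ) - 1)]
  apply sum_ne_zero
  · refine sum_eq_zero fun y _ => if_neg ?_
    rintro ⟨_, h⟩
    exact h rfl
  · intro x hx
    rw [sum_eq_single (x ^ 2 / 4)]
    · rw [if_pos]
      exact ⟨by field_simp, hx⟩
    · intro y _ hy
      rw [if_neg]
      rintro ⟨h, _⟩
      exact hy (by rw [h]; field_simp)
    · intro h
      exact absurd (mem_univ _) h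

lemma h4_ind3 : ∑ x : ZMod p, ∑ y : ZMod p,
    (if y = 0 ∧ x ≠ 0 then (1 : ℝ) else 0) = (p : ℝ) - 1 := by
  classical
  rw [← mul_one ((p : ℝ) - 1)]
  apply sum_ne_zero
  · refine sum_eq_zero fun y _ => if_neg ?_
    rintro ⟨_, h⟩
    exact h rfl
  · intro x hx
    rw [sum_eq_single (0 : ZMod p)]
    · rw [if_pos ⟨rfl, hx⟩]
    · intro y _ hy
      rw [if_neg fun h => hy h.1]
    · intro h
      exact absurd (mem_univ _) h

theorem h4_sum (h2 : p ≠ 2) : ∑ x : ZMod p, ∑ y : ZMod p, h4 p x y = ((p : ℝ) - 1) / 2 := by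
  classical
  unfold h4
  simp only [sum_sub_distrib, sum_add_distrib]
  have i1 := h4_ind1 (p := p) h2
  have i2 := h4_ind2 (p := p) h2
  have i3 := h4_ind3 (p := p)
  rw [i1, i2, i3]
  ring

theorem h4_sum_abs (h2 : p ≠ 2) : ∑ x : ZMod p, ∑ y : ZMod p, |h4 p x y| ≤ 3 * p := by
  classical
  have hle : ∀ x y : ZMod p, |h4 p x y| ≤ i4 p x y +
      (if x ^ 2 = 4 * y ∧ x ≠ 0 then 1 else 0) + (if y = 0 ∧ x ≠ 0 then 1 else 0) := by
    intro x y
    unfold h4 i4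
    split_ifs <;> norm_num
  refine (sum_le_sum fun x _ => sum_le_sum fun y _ => hle x y).trans ?_
  simp only [sum_add_distrib]
  have i1 := h4_ind1 (p := p) h2
  have i2 := h4_ind2 (p := p) h2
  have i3 := h4_ind3 (p := p)
  rw [i1, i2, i3]
  have : (1 : ℝ) ≤ p := by exact_mod_cast hp.out.one_lt.le
  linarith

end

lemma h4_abs (p : ℕ) (x y : ZMod p) : |h4 p x y| ≤ 3 := by
  unfold h4 i4
  split_ifs <;> norm_num

end Pool.Agent.R421.NR
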