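import Mathlib
import Pool.Agent.TH841.NO.Lwb
import Pool.Agent.TH841.LS.Loc1
import Pool.Agent.TH460.NO.Pr0

/-!
# Project NR: local lemmas at the primes where one of the differences has an even valuation
-/

set_option autoImplicit false
set_option linter.all false

namespace Pool.Agent.R421.NR

open Finset
open Pool.Agent.TH841.LS (LocI)
open Pool.Agent.W307.SE (Loc)
open Pool.Agent.TH460.NO (sq_near sq_div far even_norm norm_one_of sq_jac jac_sq ne_of_near)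
open Pool.Agent.TH841.NO.LWBf (exists_two sqz' chi_sq)

variable {p : ℕ} [hp : Fact p.Prime]

lemma chi_jac {z : ℤ} {s : ℤ} (h : jacobiSym z p = s) : quadraticChar (ZMod p) (z : ZMod p) = s := by
  rw [← jacobiSym.legendreSym.to_jacobiSym] at h
  exact h

lemma nd_of_jac {z : ℤ} (h : jacobiSym z p ≠ 0) : ¬ (p : ℤ) ∣ z := by
  intro hd
  apply h
  rw [← jacobiSym.legendreSym.to_jacobiSym]
  exact (legendreSym.eq_zero_iff p z).2 ((ZMod.intCast_zmod_eq_zero_iff_dvd z p).2 hd)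

/-- ramified classes at a prime with split reduction and valuation at least two -/
theorem locf (A B d : ℤ) (h2 : p ≠ 2) (hA : (p : ℤ) ^ 2 ∣ A) (hj : jacobiSym (-B) p = 1)
    (hpd : (p : ℤ) ∣ d) (hpd2 : ¬ (p : ℤ) ^ 2 ∣ d) : LocI ℚ_[p] A B d := by
  obtain ⟨A', rfl⟩ := hA
  obtain ⟨d', rfl⟩ := hpd
  have hd' : ¬ (p : ℤ) ∣ d' := by
    rintro ⟨c, rfl⟩
    exact hpd2 ⟨c, by ring⟩
  have hd0 : (d' : ZMod p) ≠ 0 := Pool.Agent.TH841.LS.LOCD0.chi_ne hd'
  have hp0 : (p : ℚ_[p]) ≠ 0 := by exact_mod_cast hp.out.ne_zero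
  have hd0' : (d' : ℚ_[p]) ≠ 0 := by
    have : d' ≠ 0 := by
      rintro rfl
      exact hd' (dvd_zero _)
    exact_mod_cast this
  have hB := chi_jac hj
  obtain ⟨v, hv0, hv⟩ := sqz' h2 (z := d' * (d' - p * A') * (p * d' - B)) (by
    push_cast
    rw [ZMod.natCast_self]
    have e : (d' : ZMod p) * (d' - 0 * A') * (0 * d' - B) = (d' * d') * (-B) := by ring
    rw [e, map_mul, map_mul, chi_sq hd0, one_mul]
    push_cast at hB
    exact hB)
  refine ⟨(p : ℚ_[p]) * d', p * v, 1, mul_ne_zero hp0 hd0', ?_, ?_⟩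
  · rw [mul_pow, ← hv]
    push_cast
    ring
  · push_cast
    ring

lemma norm_A {A : ℤ} (hA : A ≠ 0) (hev : Even (padicValInt p A)) :
    ∃ k : ℤ, Even k ∧ ‖(A : ℚ_[p])‖ = (p : ℝ) ^ k := by
  have hA0 : (A : ℚ_[p]) ≠ 0 := by exact_mod_cast hA
  refine ⟨-(A : ℚ_[p]).valuation, ?_, Padic.norm_eq_zpow_neg_valuation hA0⟩
  rw [Padic.valuation_intCast]
  have : Even ((padicValInt p A : ℕ) : ℤ) := by exact_mod_cast hev
  exact this.neg

lemma not_sq {x : ℚ_[p]} {m : ℤ} (hm : Odd m) (hx : ‖x‖ = (p : ℝ) ^ m) : ¬ IsSquare x := by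
  rintro ⟨y, rfl⟩
  have hp1 : (0 : ℝ) < p := by exact_mod_cast hp.out.pos
  have hy : y ≠ 0 := by
    rintro rfl
    rw [mul_zero, norm_zero] at hx
    exact (zpow_pos hp1 m).ne hx
  exact (Int.not_even_iff_odd.2 hm) (even_norm hy hx)

/-- nonsplit reduction with an even valuation: no ramified class -/
theorem prc (A B d : ℤ) (h2 : p ≠ 2) (hA0 : A ≠ 0) (hpA : (p : ℤ) ∣ A)
    (hev : Even (padicValInt p A)) (hj : jacobiSym (-B) p = -1) (hpd2 : ¬ (p : ℤ) ^ 2 ∣ d)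
    (h : LocI ℚ_[p] A B d) : ¬ (p : ℤ) ∣ d := by
  intro hpd
  obtain ⟨X, Y, r, hX, hY, hXr⟩ := h
  have hBn : ¬ (p : ℤ) ∣ -B := nd_of_jac (by rw [hj]; norm_num)
  have hnB : ‖((-B : ℤ) : ℚ_[p])‖ = 1 := norm_one_of hBn
  push_cast at hnB
  have hp1 : (1 : ℝ) < p := by exact_mod_cast hp.out.one_lt
  have hA0' : (A : ℚ_[p]) ≠ 0 := by exact_mod_cast hA0
  obtain ⟨k, hk, hkA⟩ := norm_A hA0 hev
  obtain ⟨n1, n2, n3⟩ := Pool.Agent.TH460.NO.norm_p_mul hpd hpd2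
  have hr : r ≠ 0 := by
    rintro rfl
    apply hX
    rw [hXr]
    ring
  obtain ⟨m, hm, hmX⟩ : ∃ m : ℤ, Odd m ∧ ‖X‖ = (p : ℝ) ^ m := by
    refine ⟨-1 + 2 * -r.valuation, ⟨-r.valuation - 1, by ring⟩, ?_⟩
    rw [hXr, norm_mul, norm_pow, n1, Padic.norm_eq_zpow_neg_valuation hr,
      zpow_add₀ (by linarith : (p : ℝ) ≠ 0), mul_comm 2, zpow_mul]
    norm_cast
  have hAlt : ‖(A : ℚ_[p])‖ < 1 := (Padic.norm_intCast_lt_one_iff (k := A)).2 hpA
  have hXns : ¬ IsSquare X := not_sq hm hmX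
  rcases lt_trichotomy ‖X‖ 1 with h1 | h1 | h1
  · -- small
    have e1 : ‖(X - B) - (-B)‖ < ‖(-B : ℚ_[p])‖ := by
      rw [hnB]
      have : (X - B) - (-B) = X := by ring
      rw [this]
      exact h1
    have s1 := sq_near h2 e1
    rcases lt_trichotomy ‖(A : ℚ_[p])‖ ‖X‖ with h3 | h3 | h3
    · have e2 : ‖(X - A) - X‖ < ‖X‖ := by
        rw [sub_sub_cancel_left, norm_neg]
        exact h3
      have s2 := sq_near h2 e2
      have hXA : X - A ≠ 0 := ne_of_near e2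
      have s3 : IsSquare (X - B) := by
        refine sq_div (mul_ne_zero hXA hX) ?_ s2
        refine ⟨Y, ?_⟩
        rw [← pow_two, hY]
        ring
      have s4 : IsSquare (-B : ℚ_[p]) := by
        refine sq_div (ne_of_near e1) ?_ s3
        rwa [mul_comm]
      have := sq_jac (p := p) (z := -B) hBn (by push_cast; exact s4)
      rw [hj] at this
      norm_num at this
    · rw [hkA, hmX] at h3
      have h4 := zpow_right_injective₀ (by linarith) (ne_of_gt hp1) h3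
      rw [h4] at hk
      exact (Int.not_even_iff_odd.2 hm) hk
    · have e2 : ‖(X - A) - (-A)‖ < ‖(-A : ℚ_[p])‖ := by
        rw [sub_neg_eq_add, sub_add_cancel, norm_neg]
        exact h3
      have s2 := sq_near h2 e2
      have hXA : X - A ≠ 0 := ne_of_near e2
      have hXB : X - B ≠ 0 := ne_of_near e1
      have hZ : ((X - A) * (X - B)) ^ 2 ≠ 0 := pow_ne_zero 2 (mul_ne_zero hXA hXB)
      have s5 : IsSquare (X * A * B) := by
        refine sq_div hZ ?_ ⟨(X - A) * (X - B), by ring⟩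
        obtain ⟨a, ha⟩ := s1
        obtain ⟨b, hb⟩ := s2
        refine ⟨Y * a * b, ?_⟩
        linear_combination (-(A * B * (X - A) * (X - B))) * hY + (Y ^ 2 * ((X - A) * -A)) * ha +
          (Y ^ 2 * (a * a)) * hb
      have hnB' : ‖(B : ℚ_[p])‖ = 1 := by rw [← norm_neg]; exact hnB
      refine not_sq (m := m + k) (hm.add_even hk) ?_ s5
      rw [norm_mul, norm_mul, hnB', mul_one, hmX, hkA, zpow_add₀ (by linarith : (p : ℝ) ≠ 0)]
  · rw [hmX] at h1
    have h3 : (p : ℝ) ^ m = (p : ℝ) ^ (0 : ℤ) := by rw [h1, zpow_zero]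
    have h4 := zpow_right_injective₀ (by linarith) (ne_of_gt hp1) h3
    rw [h4] at hm
    exact absurd hm (by decide)
  · refine hXns (far h2 (A := A) (B := B) (hAlt.trans h1) ?_ hY)
    have : ‖(B : ℚ_[p])‖ = 1 := by rw [← norm_neg]; exact hnB
    rw [this]
    exact h1

/-- nonsplit reduction with an even valuation: the units -/
theorem lwf (A B e : ℤ) (h11 : 11 ≤ p) (hA0 : A ≠ 0) (hpA : (p : ℤ) ∣ A)
    (hev : Even (padicValInt p A)) (hj : jacobiSym (-B) p = -1) (he : ¬ (p : ℤ) ∣ e)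
    (hej : jacobiSym e p = -1) : Loc ℚ_[p] A B 1 e := by
  have hp2 : p ≠ 2 := by omega
  have hp0 : (p : ℚ_[p]) ≠ 0 := by exact_mod_cast hp.out.ne_zero
  obtain ⟨k, hk⟩ := hev
  obtain ⟨A', hA'⟩ : (p : ℤ) ^ (k + k) ∣ A := by
    rw [← hk]
    exact padicValInt_dvd A
  have hk1 : 1 ≤ k := by
    by_contra hk0
    have hk0' : k = 0 := by omega
    have h1 : (p : ℤ) ^ 1 ∣ A := by rwa [pow_one]
    rw [padicValInt_dvd_iff] at h1
    rcases h1 with h1 | h1
    · exact hA0 h1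
    · omega
  have hA'p : ¬ (p : ℤ) ∣ A' := by
    rintro ⟨c, hc⟩
    have h : (p : ℤ) ^ (padicValInt p A + 1) ∣ A := by
      rw [hk]
      exact ⟨c, by rw [hA', hc]; ring⟩
    rw [padicValInt_dvd_iff] at h
    rcases h with h | h
    · exact hA0 h
    · omega
  have zA : (A' : ZMod p) ≠ 0 := Pool.Agent.TH841.LS.LOCD0.chi_ne hA'p
  have zB := chi_jac hj
  have ze := chi_jac hej
  obtain ⟨m, hm1, hm2⟩ := exists_two h11 zA (s1 := 1) (s2 := -1) (Or.inl rfl) (Or.inr rfl)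
  obtain ⟨x', hx'⟩ : ∃ x' : ℤ, (x' : ZMod p) = m := ⟨m.val, by
    rw [Int.cast_natCast, ZMod.natCast_zmod_val]⟩
  obtain ⟨x1, hx10, hx1⟩ := sqz' hp2 (z := x') (by rw [hx']; exact hm1)
  obtain ⟨u, hu0, hu⟩ := sqz' hp2 (z := (x' - A') * e) (by
    push_cast
    rw [hx', map_mul, hm2, ze]
    norm_num)
  obtain ⟨v, hv0, hv⟩ := sqz' hp2 (z := x' * (x' - A') * ((p : ℤ) ^ (k + k) * x' - B)) (by
    push_cast
    rw [hx', ZMod.natCast_self, zero_pow (by omega : k + k ≠ 0), zero_mul, zero_sub, map_mul,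
      map_mul, hm1, hm2]
    push_cast at zB
    rw [zB]
    norm_num)
  refine ⟨(p : ℚ_[p]) ^ (k + k) * x', (p : ℚ_[p]) ^ (k + k) * v,
    mul_ne_zero (pow_ne_zero _ hp0) hv0, ?_, ⟨(p : ℚ_[p]) ^ k * x1, ?_⟩,
    ⟨(p : ℚ_[p]) ^ k * u, ?_⟩⟩
  · rw [mul_pow, ← hv, hA']
    push_cast
    ring
  · rw [hx1]
    push_cast
    ring
  · have e1 : ((p : ℚ_[p]) ^ (k + k) * x' - (A : ℤ)) * (e : ℤ) =
        (p : ℚ_[p]) ^ (k + k) * (((x' - A') * e : ℤ) : ℚ_[p]) := by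
      rw [hA']
      push_cast
      ring
    rw [e1, hu]
    ring

lemma loc_swap {K : Type} [Field K] {A B e : ℤ} (h : Loc K A B 1 e) : Loc K B A 1 e := by
  obtain ⟨x, y, hy, hxy, ⟨a, ha⟩, ⟨b, hb⟩⟩ := h
  have hy2 : x * (x - A) * (x - B) ≠ 0 := by rw [← hxy]; exact pow_ne_zero 2 hy
  have hx : x ≠ 0 := fun h0 => hy2 (by rw [h0]; ring)
  have hxA : x - A ≠ 0 := fun h0 => hy2 (by rw [h0]; ring)
  by_cases he : (e : K) = 0
  · exact ⟨x, y, hy, by rw [hxy]; ring, ⟨a, ha⟩, ⟨0, by rw [he]; ring⟩⟩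
  have ha0 : a ≠ 0 := by
    rintro rfl
    push_cast at ha
    apply hx
    linear_combination ha
  have hb0 : b ≠ 0 := by
    rintro rfl
    have : (x - A) * (e : K) = 0 := by rw [hb]; ring
    rcases mul_eq_zero.1 this with h' | h'
    · exact hxA h'
    · exact he h'
  refine ⟨x, y, hy, by rw [hxy]; ring, ⟨a, ha⟩, ⟨y * e / (a * b), ?_⟩⟩
  push_cast at ha
  rw [div_mul_div_comm, eq_div_iff (mul_ne_zero (mul_ne_zero ha0 hb0) (mul_ne_zero ha0 hb0))]
  linear_combination (-(x - B) * e * b ^ 2) * ha - ((x - B) * e * x) * hb - (e : K) ^ 2 * hxy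

end Pool.Agent.R421.NR
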