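import Mathlib
import Pool.Agent.R421.NR.Loc
import Pool.Agent.TH841.NO.Ub
import Pool.Agent.TH841.LS.Loc1
import Pool.Agent.TH841.LS.Lin

/-!
# Project NR: upper and lower bounds for the isogeny Selmer group, with even valuations
-/

set_option autoImplicit false
set_option linter.all false

namespace Pool.Agent.R421.NR

open Finset Polynomial

open Pool.Agent.TH841.LS (LocI LOCA LOCB LOCC LIN dd dd_ne dd_pos dvd_dd sq_dd locI_swap)

open Pool.Agent.TH841.NO (SQ QUL LWA LWB LWC PRA PRB LIN2 S2 C1g C2g sq_of_jac ndvd_of_jac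
  nsq_of_sqf sq_finite)

open Pool.Agent.W307.SE (Loc Sel SN sel_fin)

/-- nonsplit reduction with an even valuation -/
def NS (A B : ℤ) (p : ℕ) : Prop :=
  (p : ℤ) ∣ A ∧ ¬ (p : ℤ) ∣ B ∧ Even (padicValInt p A) ∧ jacobiSym (-B) p = -1

open Classical in
/-- the primes dividing `A B` with a ramified class -/
noncomputable def S3 (A B : ℤ) : Finset ℕ :=
  (S2 A B).filter (fun p => ¬ NS A B p ∧ ¬ NS B A p)

/-- **the upper bound** -/
theorem ub3 (hql : QUL) (hA1 : LWA) (hB1 : LWB) (hC1 : LWC) (hpa : PRA) (hpb : PRB) (hlin : LIN2)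
    {A B : ℤ} (hA : A ≠ 0) (hB : B ≠ 0) (hAB : A ≠ B) :
    (SQ (-(A + B)) (A * B)).ncard * 2 ^ ((C1g A B).card + (C2g A B).card) ≤
      2 ^ 10 * 2 ^ (S3 A B).card * (Sel A B).ncard := by
  classical
  have hAB0 : A * B ≠ 0 := mul_ne_zero hA hB
  have hd0 : A - B ≠ 0 := sub_ne_zero.2 hAB
  have hS : ∀ p, p ∈ S2 A B ↔ (p.Prime ∧ (p : ℤ) ∣ A * B) ∧ 11 ≤ p := by
    intro p
    unfold S2
    rw [mem_filter, Nat.mem_primeFactors]
    have h1 : (A * B).natAbs ≠ 0 := Int.natAbs_ne_zero.2 hAB0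
    constructor
    · rintro ⟨⟨h2, h3, _⟩, h4⟩
      exact ⟨⟨h2, Int.natCast_dvd.2 h3⟩, h4⟩
    · rintro ⟨⟨h2, h3⟩, h4⟩
      exact ⟨⟨h2, Int.natCast_dvd.1 h3, h1⟩, h4⟩
  have hC : ∀ p, p ∈ C1g A B ↔ (p.Prime ∧ (p : ℤ) ∣ A - B) ∧ 11 ≤ p ∧ ¬ (p : ℤ) ∣ A ∧
      jacobiSym A p = 1 := by
    intro p
    unfold C1g
    rw [mem_filter, Nat.mem_primeFactors]
    have h1 : (A - B).natAbs ≠ 0 := Int.natAbs_ne_zero.2 hd0
    constructor
    · rintro ⟨⟨h2, h3, _⟩, h4⟩
      exact ⟨⟨h2, Int.natCast_dvd.2 h3⟩, h4⟩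
    · rintro ⟨⟨h2, h3⟩, h4⟩
      exact ⟨⟨h2, Int.natCast_dvd.1 h3, h1⟩, h4⟩
  have hG : ∀ p, p ∈ C2g A B ↔ (p.Prime ∧ (p : ℤ) ∣ A * B) ∧ 11 ≤ p ∧
      (p : ℤ) ∣ A ∧ (p : ℤ) ∣ B ∧ ¬ (p : ℤ) ^ 2 ∣ A ∧ ¬ (p : ℤ) ^ 2 ∣ B ∧ ¬ (p : ℤ) ^ 2 ∣ A - B ∧
      jacobiSym ((A / p) * (B / p)) p = 1 := by
    intro p
    unfold C2g
    rw [mem_filter, Nat.mem_primeFactors]
    have h1 : (A * B).natAbs ≠ 0 := Int.natAbs_ne_zero.2 hAB0
    constructor
    · rintro ⟨⟨h2, h3, _⟩, h4⟩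
      exact ⟨⟨h2, Int.natCast_dvd.2 h3⟩, h4⟩
    · rintro ⟨⟨h2, h3⟩, h4⟩
      exact ⟨⟨h2, Int.natCast_dvd.1 h3, h1⟩, h4⟩
  have hCS : ∀ p ∈ C1g A B, ¬ (p : ℤ) ∣ A * B := by
    intro p hp hd
    obtain ⟨⟨h1, h2⟩, h3, h4, _⟩ := (hC p).1 hp
    rcases (Nat.prime_iff_prime_int.1 h1).dvd_or_dvd hd with h5 | h5
    · exact h4 h5
    · exact h4 (by have := dvd_add h2 h5; simpa using this)
  have hfin : (SQ (-(A + B)) (A * B)).Finite := sq_finite hAB0
  have hS3 : ∀ p, p ∈ S3 A B ↔ p ∈ S2 A B ∧ ¬ NS A B p ∧ ¬ NS B A p := by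
    intro p
    unfold S3
    rw [mem_filter]
  obtain ⟨Z, hZ1, hZ2⟩ := hlin A (S3 A B) (C1g A B) (C2g A B)
    (fun p hp => ⟨((hS p).1 ((hS3 p).1 hp).1).1.1, ((hS p).1 ((hS3 p).1 hp).1).2⟩)
    (fun p hp => ⟨((hC p).1 hp).1.1, ((hC p).1 hp).2.1,
      fun h' => hCS p hp ((hS p).1 ((hS3 p).1 h').1).1.2⟩)
    (fun p hp => (hS3 p).2 ⟨(hS p).2 ⟨((hG p).1 hp).1, ((hG p).1 hp).2.1⟩,
      fun h' => h'.2.1 ((hG p).1 hp).2.2.2.1, fun h' => h'.2.1 ((hG p).1 hp).2.2.1⟩)
    (fun p hp => ⟨((hG p).1 hp).2.2.1, ((hG p).1 hp).2.2.2.2.1⟩)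
    hfin.toFinset (by
      intro d hd
      obtain ⟨h1, h2, _, h4⟩ := (hfin.mem_toFinset).1 hd
      have hdne : d ≠ 0 := h1.ne_zero
      obtain ⟨_, hq⟩ := hql A B d hA hB hAB hdne h2
      refine ⟨h1, fun p hp hpd => ?_, fun p hp => ?_, fun p hp => ?_⟩
      · by_cases h11 : 11 ≤ p
        · haveI : Fact p.Prime := ⟨hp⟩
          refine Or.inl ((hS3 p).2 ⟨(hS p).2 ⟨⟨hp, hpd.trans h2⟩, h11⟩, fun h' => ?_,
            fun h' => ?_⟩)
          · exact prc A B d (by omega) hA h'.1 h'.2.2.1 h'.2.2.2 (nsq_of_sqf h1 hp)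
              ((hq p).1 (h4 p)) hpd
          · exact prc B A d (by omega) hB h'.1 h'.2.2.1 h'.2.2.2 (nsq_of_sqf h1 hp)
              (locI_swap ((hq p).1 (h4 p))) hpd
        · refine Or.inr ?_
          by_contra h7
          have : p = 8 ∨ p = 9 ∨ p = 10 := by omega
          rcases this with rfl | rfl | rfl
          · exact absurd hp (by decide)
          · exact absurd hp (by decide)
          · exact absurd hp (by decide)
      · obtain ⟨⟨k1, k2⟩, k3, k4, k5⟩ := (hC p).1 hp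
        haveI : Fact p.Prime := ⟨k1⟩
        exact hpa p A B d (by omega) hAB k4 k2 k5 (fun h' => hCS p hp (h'.trans h2))
          ((hq p).1 (h4 p))
      · obtain ⟨⟨k1, _⟩, k3, k4, k5, k6, k7, k8, k9⟩ := (hG p).1 hp
        haveI : Fact p.Prime := ⟨k1⟩
        exact hpb p A B d (by omega) k4 k5 k6 k7 k8 k9 (nsq_of_sqf h1 k1) ((hq p).1 (h4 p)))
  have hcard : hfin.toFinset.card = (SQ (-(A + B)) (A * B)).ncard :=
    (Set.ncard_eq_toFinset_card _ hfin).symm
  rw [hcard] at hZ2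
  refine hZ2.trans (Nat.mul_le_mul_left _ ?_)
  have hsel : (Sel A B).Finite := sel_fin Pool.Agent.W410.FK.seld hA hB hAB
  have hsub : ((fun e : ℤ => ((1 : ℤ), e)) '' (Z : Set ℤ)) ⊆ Sel A B := by
    rintro x ⟨e, he, rfl⟩
    obtain ⟨z1, z2, z3, z4, z5, z6, z7, z8, z9⟩ := hZ1 e he
    have hene : e ≠ 0 := z1.ne_zero
    obtain ⟨c1, c2⟩ := hC1 A B e hA hB hAB hene
    refine ⟨squarefree_one, z1, c1 z2, fun p hp => ?_⟩
    have hpp : p.Prime := hp.out
    by_cases hp2 : p = 2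
    · subst hp2
      exact (c2 2).1 (Pool.Agent.TH841.LS.LINf.padic_sq2 z4)
    by_cases hp3 : p = 3
    · subst hp3
      exact (c2 3).1 (sq_of_jac (by norm_num) z5)
    by_cases hp5 : p = 5
    · subst hp5
      exact (c2 5).1 (sq_of_jac (by norm_num) z6)
    by_cases hp7 : p = 7
    · subst hp7
      exact (c2 7).1 (sq_of_jac (by norm_num) z7)
    have h11 : 11 ≤ p := by
      by_contra hcon
      have h1 : p < 11 := by omega
      have h2 := hpp.two_le
      interval_cases p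
      · exact hp2 rfl
      · exact hp3 rfl
      · exact absurd hpp (by decide)
      · exact hp5 rfl
      · exact absurd hpp (by decide)
      · exact hp7 rfl
      · exact absurd hpp (by decide)
      · exact absurd hpp (by decide)
      · exact absurd hpp (by decide)
    by_cases hpAB : (p : ℤ) ∣ A * B
    · have hpS : p ∈ S2 A B := (hS p).2 ⟨⟨hpp, hpAB⟩, h11⟩
      by_cases hpe : (p : ℤ) ∣ e
      · have hpC : p ∈ C2g A B := by
          rcases mem_union.1 (z3 p hpp hpe) with h' | h'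
          · exact absurd hpAB (hCS p h')
          · exact h'
        obtain ⟨_, k3, k4, k5, k6, k7, k8, k9⟩ := (hG p).1 hpC
        have k10 := z9 p hpC hpe
        obtain ⟨A', hA'⟩ := k4
        obtain ⟨B', hB'⟩ := k5
        obtain ⟨e', he'⟩ := hpe
        have hp0 : (p : ℤ) ≠ 0 := by exact_mod_cast hpp.ne_zero
        rw [hA', hB', Int.mul_ediv_cancel_left _ hp0, Int.mul_ediv_cancel_left _ hp0] at k9
        rw [hA', he', Int.mul_ediv_cancel_left _ hp0, Int.mul_ediv_cancel_left _ hp0] at k10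
        refine (c2 p).2 ?_ ?_
        · obtain ⟨v, hv⟩ := sq_of_jac (p := p) hp2 k9
          refine ⟨p * v, ?_⟩
          rw [hA', hB']
          push_cast at hv ⊢
          linear_combination (p : ℚ_[p]) ^ 2 * hv
        · obtain ⟨v, hv⟩ := sq_of_jac (p := p) hp2 k10
          refine ⟨p * v, ?_⟩
          rw [hA', he']
          push_cast at hv ⊢
          linear_combination (p : ℚ_[p]) ^ 2 * hv
      · by_cases hp3' : p ∈ S3 A B
        · exact (c2 p).1 (sq_of_jac hp2 (z8 p hp3' hpe))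
        · have h5 : NS A B p ∨ NS B A p := by
            by_contra hcon
            rw [not_or] at hcon
            exact hp3' ((hS3 p).2 ⟨hpS, hcon.1, hcon.2⟩)
          have h6 : jacobiSym e p = 1 ∨ jacobiSym e p = -1 := by
            have e0 : (e : ZMod p) ≠ 0 := Pool.Agent.TH841.LS.LOCD0.chi_ne hpe
            rw [← jacobiSym.legendreSym.to_jacobiSym]
            exact legendreSym.eq_one_or_neg_one p e0
          rcases h6 with h6 | h6
          · exact (c2 p).1 (sq_of_jac hp2 h6)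
          rcases h5 with h5 | h5
          · exact lwf A B e h11 hA h5.1 h5.2.2.1 h5.2.2.2 hpe h6
          · exact loc_swap (lwf B A e h11 hB h5.1 h5.2.2.1 h5.2.2.2 hpe h6)
    · have hpA : ¬ (p : ℤ) ∣ A := fun h' => hpAB (h'.mul_right _)
      have hpB : ¬ (p : ℤ) ∣ B := fun h' => hpAB (h'.mul_left _)
      by_cases hpd : (p : ℤ) ∣ A - B
      · obtain ⟨l1, l2⟩ := hB1 p A B e h11 hAB hpA hpd
        by_cases hpe : (p : ℤ) ∣ e
        · have hpC : p ∈ C1g A B := by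
            rcases mem_union.1 (z3 p hpp hpe) with h' | h'
            · exact h'
            · exact absurd ((hG p).1 h').1.2 hpAB
          exact l2 ((hC p).1 hpC).2.2.2 (nsq_of_sqf z1 hpp)
        · exact l1 hpe
      · refine hA1 p A B e h11 hpA hpB hpd fun hpe => ?_
        rcases mem_union.1 (z3 p hpp hpe) with h' | h'
        · exact hpd ((hC p).1 h').1.2
        · exact hpAB ((hG p).1 h').1.2
  have h1 : ((fun e : ℤ => ((1 : ℤ), e)) '' (Z : Set ℤ)).ncard = Z.card := by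
    rw [Set.ncard_image_of_injective _ (fun x y h => (Prod.mk.inj h).2), Set.ncard_coe_finset]
  rw [← h1]
  exact Set.ncard_le_ncard hsub hsel


/-! ### The lower bound -/

/-- a large space of everywhere locally trivial classes: `G` consists of primes where all the
ramified classes are trivial, `C` contains the primes dividing `A - B` -/
theorem lb3 (hLA : LOCA) (hLB : LOCB) (hLC : LOCC) (hL : LIN)
    (A B : ℤ) (h : A ≠ B) (hA : A ≠ 0) (hB : B ≠ 0) (G C : Finset ℕ)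
    (hG : ∀ p ∈ G, p.Prime ∧ 11 ≤ p ∧ ¬ (p : ℤ) ∣ A - B ∧
      (Odd (padicValInt p A) ∨ Odd (padicValInt p B) ∨
        ((p : ℤ) ^ 2 ∣ A ∧ jacobiSym (-B) p = 1) ∨ ((p : ℤ) ^ 2 ∣ B ∧ jacobiSym (-A) p = 1)))
    (hC : ∀ p ∈ C, p.Prime ∧ 11 ≤ p ∧ p ∉ G)
    (hCA : ∀ p : ℕ, p.Prime → 11 ≤ p → (p : ℤ) ∣ A - B → p ∈ C) :
    ∃ V : Submodule (ZMod 2) (G → ZMod 2),
      (∀ ε ∈ V, (∀ (p : ℕ) [Fact p.Prime], LocI ℚ_[p] A B (dd G ε)) ∧ LocI ℝ A B (dd G ε)) ∧
      G.card ≤ Module.finrank (ZMod 2) V + C.card + 5 := by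
  classical
  have hGp : ∀ p ∈ G, p.Prime := fun p hp => (hG p hp).1
  obtain ⟨V, hV1, hV2⟩ := hL A G (C ∪ {3, 5, 7}) ∅
    (fun p hp => ⟨hGp p hp, fun h2 => by have := (hG p hp).2.1; omega⟩)
    (by
      intro p hp
      rcases mem_union.1 hp with hp | hp
      · obtain ⟨h1, h2, h3⟩ := hC p hp
        exact ⟨h1, by omega, h3⟩
      · simp only [mem_insert, mem_singleton] at hp
        rcases hp with rfl | rfl | rfl
        · exact ⟨by norm_num, by norm_num, fun h5 => by have := (hG _ h5).2.1; omega⟩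
        · exact ⟨by norm_num, by norm_num, fun h5 => by have := (hG _ h5).2.1; omega⟩
        · exact ⟨by norm_num, by norm_num, fun h5 => by have := (hG _ h5).2.1; omega⟩)
    (fun p hp => absurd hp (notMem_empty p))
  refine ⟨V, fun ε hε => ?_, ?_⟩
  · obtain ⟨k1, _⟩ := hV2 ε hε
    have hd0 : dd G ε ≠ 0 := dd_ne hGp ε
    obtain ⟨l1, l2⟩ := hLC A B (dd G ε) hA hB h hd0
    refine ⟨fun p hp => ?_, l2 (dd_pos hGp ε)⟩
    have hpp : p.Prime := hp.out
    by_cases hp2 : p = 2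
    · exact l1 p (Or.inl (k1 p (Or.inr hp2)))
    by_cases hp11 : 11 ≤ p
    · by_cases hpd : (p : ℤ) ∣ A - B
      · exact l1 p (Or.inl (k1 p (Or.inl (mem_union_left _ (hCA p hpp hp11 hpd)))))
      · by_cases hdd : (p : ℤ) ∣ dd G ε
        · obtain ⟨_, _, _, ho⟩ := hG p (dvd_dd hGp ε hpp hdd)
          have hodd : ∀ x : ℤ, Odd (padicValInt p x) → (p : ℤ) ∣ x := by
            intro x hx
            by_contra hn
            rw [padicValInt.eq_zero_of_not_dvd hn] at hx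
            exact (by decide : ¬ Odd 0) hx
          rcases ho with ho | ho | ho | ho
          · exact hLB p A B _ hp11 hA hB hd0 (fun hB' => hpd (dvd_sub (hodd A ho) hB')) ho hdd
              (sq_dd hGp ε hpp)
          · exact locI_swap (hLB p B A _ hp11 hB hA hd0
              (fun hA' => hpd (dvd_sub hA' (hodd B ho))) ho hdd (sq_dd hGp ε hpp))
          · exact locf A B _ hp2 ho.1 ho.2 hdd (sq_dd hGp ε hpp)
          · exact locI_swap (locf B A _ hp2 ho.1 ho.2 hdd (sq_dd hGp ε hpp))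
        · exact hLA p A B _ hp11 hA hB hpd hdd
    · have h357 : p = 3 ∨ p = 5 ∨ p = 7 := by
        have h1 : p < 11 := by omega
        have h2 := hpp.two_le
        interval_cases p
        · exact absurd rfl hp2
        · exact Or.inl rfl
        · exact absurd hpp (by decide)
        · exact Or.inr (Or.inl rfl)
        · exact absurd hpp (by decide)
        · exact Or.inr (Or.inr rfl)
        · exact absurd hpp (by decide)
        · exact absurd hpp (by decide)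
        · exact absurd hpp (by decide)
      refine l1 p (Or.inl (k1 p (Or.inl (mem_union_right _ ?_))))
      simp only [mem_insert, mem_singleton]
      exact h357
  · have h2 : (C ∪ {3, 5, 7}).card ≤ C.card + 3 :=
      (card_union_le _ _).trans (Nat.add_le_add_left (by decide) _)
    have h3 : (∅ : Finset ℕ).card = 0 := card_empty
    omega

end Pool.Agent.R421.NR
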