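import Mathlib
import Pool.Agent.R421.NR.Bnd
import Pool.Agent.TH841.PT.Fam3
import Pool.Agent.TH841.NO.Main
import Pool.Agent.TH841.LS.Shl
import Pool.Agent.TH841.LS.Coc
import Pool.Agent.TH841.LS.Lot
import Pool.Agent.TH841.LS.Cob
import Pool.Agent.TH841.LS.Ker
import Pool.Agent.TH841.NO.Qul
import Pool.Agent.TH841.NO.Lwa
import Pool.Agent.TH841.NO.Lwb
import Pool.Agent.TH841.NO.Pr
import Pool.Agent.TH841.NO.Lin2
import Pool.Agent.TH841.LS.Loca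
import Pool.Agent.TH841.LS.Locb
import Pool.Agent.R431.NO.Rk

/-!
# Project NR: the data of one curve
-/

set_option autoImplicit false
set_option linter.all false

namespace Pool.Agent.R421.NR

open Finset

open Pool.Agent.TH841.LS (LocI LOCA LOCB LOCC LIN dd SHL shl_of WI)

open Pool.Agent.TH841.NO (SQ QUL LWA LWB LWC PRA PRB LIN2 S2 C1g C2g fo sq_finite)

open Pool.Agent.W307.SE (Loc Sel SN sel_fin SN_nonneg)

open Pool.Agent.TH841.SH.D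

open Pool.Agent.TH841.SH (Bd)

open Pool.Agent.TH841.PT (EQ bd_EQ)

open Pool.Agent.R431.NO (OkS)

theorem tshl : SHL := shl_of Pool.Agent.TH841.LS.COCf.coc_all Pool.Agent.TH841.LS.LOTf.lot
  Pool.Agent.TH841.LS.COBf.cob_pt Pool.Agent.TH841.LS.KERf.ker

lemma conv {W : WeierstrassCurve ℚ} {R : ℕ} (h1 : ∀ j : ℕ, Finite (ShaTor W (2 ^ j)))
    (h2 : ∀ j : ℕ, 1 ≤ j → (2 : ℝ) ^ rk W *
      (Nat.card (ShaTor W (2 ^ j)) : ℝ) ^ ((1 : ℝ) / j) ≤ 2 ^ R) (j : ℕ) (hj : 1 ≤ j) :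
    {x : Sha W | (2 ^ j) • x = 0}.Finite ∧
      2 ^ (rk W * j) * {x : Sha W | (2 ^ j) • x = 0}.ncard ≤ 2 ^ (R * j) := by
  have hf : {x : Sha W | (2 ^ j) • x = 0}.Finite := h1 j
  refine ⟨hf, ?_⟩
  have e : Nat.card (ShaTor W (2 ^ j)) = {x : Sha W | (2 ^ j) • x = 0}.ncard :=
    Nat.card_coe_set_eq _
  have h3 := h2 j hj
  rw [e] at h3
  generalize {x : Sha W | (2 ^ j) • x = 0}.ncard = c at h3 ⊢
  have hc : (0 : ℝ) ≤ (c : ℝ) := Nat.cast_nonneg _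
  have hj0 : (j : ℝ) ≠ 0 := by
    have : j ≠ 0 := by omega
    exact_mod_cast this
  have h4 : ((2 : ℝ) ^ rk W * (c : ℝ) ^ ((1 : ℝ) / j)) ^ j ≤ (2 ^ R) ^ j :=
    pow_le_pow_left₀ (by positivity) h3 j
  rw [mul_pow, ← pow_mul, ← pow_mul, ← Real.rpow_natCast ((c : ℝ) ^ ((1 : ℝ) / j)),
    ← Real.rpow_mul hc, one_div_mul_cancel hj0, Real.rpow_one] at h4
  exact_mod_cast h4

lemma rk_le {A B : ℤ} (hA : A ≠ 0) (hB : B ≠ 0) (hAB : A ≠ B) {R : ℕ}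
    (h : SN A B ≤ 2 ^ R) : rk (EQ A B) ≤ R := by
  classical
  obtain ⟨b1, b2⟩ := bd_EQ hA hB hAB
  by_contra hcon
  have b3 : 1 ≤ Nat.card {x : Pool.Agent.W262.SH.Sha (EQ A B) // x + x = 0} :=
    Nat.card_pos_iff.2 ⟨⟨⟨0, add_zero 0⟩⟩, b1⟩
  have b4 : (1 : ℝ) ≤ Nat.card {x : Pool.Agent.W262.SH.Sha (EQ A B) // x + x = 0} := by
    exact_mod_cast b3
  have b5 : (2 : ℝ) ^ (R + 1) ≤ 2 ^ rk (EQ A B) :=
    pow_le_pow_right₀ (by norm_num) (by omega)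
  have b6 : (2 : ℝ) ^ rk (EQ A B) ≤ SN A B := by
    refine le_trans ?_ b2
    exact le_mul_of_one_le_right (by positivity) b4
  have b7 : (2 : ℝ) ^ R < 2 ^ (R + 1) := pow_lt_pow_right₀ (by norm_num) (by omega)
  linarith

/-- **one curve** -/
theorem one_ok {A B : ℤ} (hA : A ≠ 0) (hB : B ≠ 0) (hAB : A ≠ B) {R : ℕ} (hS : SN A B ≤ 2 ^ R)
    {lo hi : ℝ} (G C : Finset ℕ)
    (hG : ∀ p ∈ G, p.Prime ∧ 11 ≤ p ∧ ¬ (p : ℤ) ∣ A - B ∧
      (Odd (padicValInt p A) ∨ Odd (padicValInt p B) ∨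
        ((p : ℤ) ^ 2 ∣ A ∧ jacobiSym (-B) p = 1) ∨ ((p : ℤ) ^ 2 ∣ B ∧ jacobiSym (-A) p = 1)))
    (hC : ∀ p ∈ C, p.Prime ∧ 11 ≤ p ∧ p ∉ G)
    (hCA : ∀ p : ℕ, p.Prime → 11 ≤ p → (p : ℤ) ∣ A - B → p ∈ C)
    (hlo : lo + C.card + R + 7 ≤ G.card)
    (hhi : ((S3 A B).card : ℝ) + R + 10 ≤ (C1g A B).card + hi) : OkS lo hi R (A, B) := by
  have hbd := bd_EQ hA hB hAB
  refine ⟨hA, hB, hAB, fun j hj => conv (fun j => hbd.fin j)
    (fun j hj => (hbd.wt_le hj).trans hS) j hj, ?_, ?_⟩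
  · change (fo (-(A + B)) (A * B) : ℝ) ≤ hi
    have h1 := ub3 Pool.Agent.TH841.NO.QULf.qul Pool.Agent.TH841.NO.LWAf.lwa
      Pool.Agent.TH841.NO.LWBf.lwb Pool.Agent.TH841.NO.LWBf.lwc Pool.Agent.TH841.NO.PRf.pra
      Pool.Agent.TH841.NO.PRf.prb Pool.Agent.TH841.NO.LIN2f.lin2 hA hB hAB
    have h2 : (Sel A B).ncard ≤ 2 ^ R := by
      have h3 : SN A B = ((Sel A B).ncard : ℝ) := rfl
      rw [h3] at hS
      exact_mod_cast hS
    have h3 : (SQ (-(A + B)) (A * B)).ncard * 2 ^ (C1g A B).card ≤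
        2 ^ (10 + (S3 A B).card + R) := by
      have h4 : (SQ (-(A + B)) (A * B)).ncard * 2 ^ (C1g A B).card ≤
          (SQ (-(A + B)) (A * B)).ncard * 2 ^ ((C1g A B).card + (C2g A B).card) :=
        Nat.mul_le_mul_left _ (Nat.pow_le_pow_right two_pos (by omega))
      refine h4.trans (h1.trans ?_)
      rw [pow_add, pow_add]
      exact Nat.mul_le_mul_left _ h2
    have h4 : fo (-(A + B)) (A * B) + (C1g A B).card ≤ 10 + (S3 A B).card + R := by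
      by_cases h0 : (SQ (-(A + B)) (A * B)).ncard = 0
      · exfalso
        have h5 : (1 : ℤ) ∈ SQ (-(A + B)) (A * B) := by
          refine ⟨squarefree_one, one_dvd _, ⟨1, 1, 0, Or.inl one_ne_zero, ?_⟩, fun p _ =>
            ⟨1, 1, 0, Or.inl one_ne_zero, ?_⟩⟩
          · push_cast
            ring
          · push_cast
            ring
        have h6 := Pool.Agent.TH841.NO.sq_finite (a := -(A + B)) (mul_ne_zero hA hB)
        rw [Set.ncard_eq_zero h6] at h0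
        rw [h0] at h5
        exact h5
      · have h5 : 2 ^ fo (-(A + B)) (A * B) ≤ (SQ (-(A + B)) (A * B)).ncard :=
          Nat.pow_log_le_self 2 h0
        have h6 : 2 ^ (fo (-(A + B)) (A * B) + (C1g A B).card) ≤
            2 ^ (10 + (S3 A B).card + R) := by
          rw [pow_add]
          exact (Nat.mul_le_mul_right _ h5).trans h3
        exact (Nat.pow_le_pow_iff_right (by norm_num)).1 h6
    have h5 : (fo (-(A + B)) (A * B) : ℝ) + (C1g A B).card ≤ 10 + (S3 A B).card + R := by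
      exact_mod_cast h4
    linarith
  · obtain ⟨V, hV, hc⟩ := lb3 Pool.Agent.TH841.LS.LOCAf.loca Pool.Agent.TH841.LS.LOCBf.locb
      Pool.Agent.TH841.LS.LOCBf.locc Pool.Agent.TH841.LS.LINf.lin A B hAB hA hB G C hG hC hCA
    obtain ⟨k, hk, hφ⟩ := tshl A B hAB hA hB G (fun p hp => (hG p hp).1) V hV
    refine ⟨k, ?_, hφ⟩
    have h1 := rk_le hA hB hAB hS
    have h2 : G.card ≤ k + R + 2 + C.card + 5 := by omega
    have h3 : (G.card : ℝ) ≤ k + R + 2 + C.card + 5 := by exact_mod_cast h2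
    linarith

end Pool.Agent.R421.NR
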