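import Mathlib
import Pool.Agent.R421.NR.One
import Pool.Agent.W262.RK.Defs

/-!
# Project NR: from the local data at the primes to the data of one curve
-/

set_option autoImplicit false
set_option linter.all false

namespace Pool.Agent.R421.NR

open Finset

open Pool.Agent.TH841.NO (S2 C1g)

open Pool.Agent.W307.SE (SN)

open Pool.Agent.R431.NO (OkS)

open Pool.Agent.W262.RK (PS)

/-- the ramified classes at `p` are trivial -/
def Gc (A B : ℤ) (p : ℕ) : Prop := ¬ (p : ℤ) ∣ A - B ∧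
  (Odd (padicValInt p A) ∨ Odd (padicValInt p B) ∨
    ((p : ℤ) ^ 2 ∣ A ∧ jacobiSym (-B) p = 1) ∨ ((p : ℤ) ^ 2 ∣ B ∧ jacobiSym (-A) p = 1))

/-- the value at `p` -/
def FV (A B : ℤ) (p : ℕ) (v : ℝ) : Prop :=
  (v = 1 ∧ Gc A B p) ∨
  (v = 0 ∧ ¬ (p : ℤ) ∣ A - B ∧ (¬ (p : ℤ) ∣ A * B ∨ NS A B p ∨ NS B A p)) ∨
  (v = -1 ∧ (p : ℤ) ∣ A - B ∧ ¬ (p : ℤ) ∣ A ∧ jacobiSym A p = 1)

/-- **one curve** -/
theorem val_ok {A B : ℤ} (hA : A ≠ 0) (hB : B ≠ 0) (hAB : A ≠ B) {R : ℕ} (hS : SN A B ≤ 2 ^ R)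
    (z y : ℕ) (hz : 10 ≤ z) (h : ℕ → ℝ) (c : ℝ) (hc0 : 0 ≤ c) (X W : Finset ℕ)
    (hX : ∀ p ∈ PS z y, p ∉ X → FV A B p (h p)) (hh : ∀ p, |h p| ≤ c)
    (hW : ∀ p : ℕ, p.Prime → y < p → (p : ℤ) ∣ A * B * (A - B) → p ∈ W) {lo hi : ℝ}
    (hlo : lo + ((c + 1) * X.card + z + W.card + R + 10) ≤ ∑ p ∈ PS z y, h p)
    (hhi : ∑ p ∈ PS z y, h p + ((c + 1) * X.card + z + W.card + R + 10) ≤ hi) :
    OkS lo hi R (A, B) := by
  classical
  have hAB0 : A * B ≠ 0 := mul_ne_zero hA hB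
  have hd0 : A - B ≠ 0 := sub_ne_zero.2 hAB
  obtain ⟨P0, hP0⟩ : ∃ P0, P0 = (PS z y).filter (fun p => p ∉ X) := ⟨_, rfl⟩
  obtain ⟨G, hG⟩ : ∃ G, G = P0.filter (fun p => h p = 1) := ⟨_, rfl⟩
  obtain ⟨N1, hN1⟩ : ∃ N1, N1 = P0.filter (fun p => h p = -1) := ⟨_, rfl⟩
  obtain ⟨C, hC⟩ : ∃ C, C = (A - B).natAbs.primeFactors.filter (fun p => 11 ≤ p) := ⟨_, rfl⟩
  have mP : ∀ p ∈ PS z y, p.Prime ∧ 11 ≤ p ∧ z < p ∧ p ≤ y := by
    intro p hp
    unfold PS at hp
    rw [mem_filter, mem_Ioc] at hp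
    exact ⟨hp.2, by omega, hp.1.1, hp.1.2⟩
  have mP0 : ∀ p ∈ P0, p ∈ PS z y ∧ FV A B p (h p) := by
    intro p hp
    rw [hP0, mem_filter] at hp
    exact ⟨hp.1, hX p hp.1 hp.2⟩
  have mC : ∀ p : ℕ, p ∈ C ↔ p.Prime ∧ 11 ≤ p ∧ (p : ℤ) ∣ A - B := by
    intro p
    rw [hC, mem_filter, Nat.mem_primeFactors]
    constructor
    · rintro ⟨⟨h1, h2, _⟩, h3⟩
      exact ⟨h1, h3, Int.natCast_dvd.2 h2⟩
    · rintro ⟨h1, h3, h2⟩
      exact ⟨⟨h1, Int.natCast_dvd.1 h2, Int.natAbs_ne_zero.2 hd0⟩, h3⟩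
  have mG : ∀ p ∈ G, p ∈ PS z y ∧ Gc A B p := by
    intro p hp
    rw [hG, mem_filter] at hp
    obtain ⟨h1, h2⟩ := mP0 p hp.1
    refine ⟨h1, ?_⟩
    rcases h2 with h2 | h2 | h2
    · exact h2.2
    · exfalso
      rw [hp.2] at h2
      norm_num at h2
    · exfalso
      rw [hp.2] at h2
      norm_num at h2
  -- the sum
  have hsum0 : ∑ p ∈ P0, h p = (G.card : ℝ) - N1.card := by
    have e1 : ∀ p ∈ P0, h p = (if h p = 1 then (1 : ℝ) else 0) - (if h p = -1 then 1 else 0) := by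
      intro p hp
      rcases (mP0 p hp).2 with h2 | h2 | h2
      · rw [h2.1]
        norm_num
      · rw [h2.1]
        norm_num
      · rw [h2.1]
        norm_num
    rw [sum_congr rfl e1, sum_sub_distrib, sum_boole, sum_boole, hG, hN1]
  have hsum : |∑ p ∈ PS z y, h p - ((G.card : ℝ) - N1.card)| ≤ c * X.card := by
    rw [← hsum0, ← sum_filter_add_sum_filter_not (PS z y) (fun p => p ∉ X) h, hP0,
      add_sub_cancel_left]
    refine (abs_sum_le_sum_abs _ _).trans ?_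
    refine (sum_le_sum fun p _ => hh p).trans ?_
    rw [sum_const, nsmul_eq_mul, mul_comm]
    refine mul_le_mul_of_nonneg_left ?_ hc0
    exact_mod_cast card_le_card (fun p hp => by
      rw [mem_filter] at hp
      exact not_not.1 hp.2)
  have hs := abs_le.1 hsum
  -- the cardinalities
  have cC : (C.card : ℝ) ≤ N1.card + X.card + z + W.card := by
    have h1 : C ⊆ N1 ∪ X ∪ Icc 1 z ∪ W := by
      intro p hp
      obtain ⟨p1, p2, p3⟩ := (mC p).1 hp
      by_cases hpz : p ≤ z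
      · exact mem_union_left _ (mem_union_right _ (mem_Icc.2 ⟨by omega, hpz⟩))
      by_cases hpy : p ≤ y
      · have hPS : p ∈ PS z y := by
          unfold PS
          rw [mem_filter, mem_Ioc]
          exact ⟨⟨by omega, hpy⟩, p1⟩
        by_cases hpX : p ∈ X
        · exact mem_union_left _ (mem_union_left _ (mem_union_right _ hpX))
        · refine mem_union_left _ (mem_union_left _ (mem_union_left _ ?_))
          rw [hN1, mem_filter, hP0, mem_filter]
          refine ⟨⟨hPS, hpX⟩, ?_⟩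
          rcases hX p hPS hpX with h2 | h2 | h2
          · exact absurd p3 h2.2.1
          · exact absurd p3 h2.2.1
          · exact h2.1
      · exact mem_union_right _ (hW p p1 (by omega) (p3.mul_left _))
    have h2 := card_le_card h1
    have h3 := card_union_le (N1 ∪ X ∪ Icc 1 z) W
    have h4 := card_union_le (N1 ∪ X) (Icc 1 z)
    have h5 := card_union_le N1 X
    have h6 : (Icc 1 z).card = z := by simp
    have h7 : C.card ≤ N1.card + X.card + z + W.card := by omega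
    exact_mod_cast h7
  have cS : ((S3 A B).card : ℝ) ≤ G.card + X.card + z + W.card := by
    have h1 : S3 A B ⊆ G ∪ X ∪ Icc 1 z ∪ W := by
      intro p hp
      unfold S3 S2 at hp
      rw [mem_filter, mem_filter, Nat.mem_primeFactors] at hp
      obtain ⟨⟨⟨p1, p2, _⟩, p4⟩, p5, p6⟩ := hp
      have p3 : (p : ℤ) ∣ A * B := Int.natCast_dvd.2 p2
      by_cases hpz : p ≤ z
      · exact mem_union_left _ (mem_union_right _ (mem_Icc.2 ⟨by omega, hpz⟩))
      by_cases hpy : p ≤ y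
      · have hPS : p ∈ PS z y := by
          unfold PS
          rw [mem_filter, mem_Ioc]
          exact ⟨⟨by omega, hpy⟩, p1⟩
        by_cases hpX : p ∈ X
        · exact mem_union_left _ (mem_union_left _ (mem_union_right _ hpX))
        · refine mem_union_left _ (mem_union_left _ (mem_union_left _ ?_))
          rw [hG, mem_filter, hP0, mem_filter]
          refine ⟨⟨hPS, hpX⟩, ?_⟩
          rcases hX p hPS hpX with h2 | h2 | h2
          · exact h2.1
          · exfalso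
            rcases h2.2.2 with h3 | h3 | h3
            · exact h3 p3
            · exact p5 h3
            · exact p6 h3
          · exfalso
            obtain ⟨_, q1, q2, _⟩ := h2
            rcases (Nat.prime_iff_prime_int.1 p1).dvd_or_dvd p3 with q3 | q3
            · exact q2 q3
            · exact q2 (by have := dvd_add q1 q3; simpa using this)
      · exact mem_union_right _ (hW p p1 (by omega) (p3.mul_right _))
    have h2 := card_le_card h1
    have h3 := card_union_le (G ∪ X ∪ Icc 1 z) W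
    have h4 := card_union_le (G ∪ X) (Icc 1 z)
    have h5 := card_union_le G X
    have h6 : (Icc 1 z).card = z := by simp
    have h7 : (S3 A B).card ≤ G.card + X.card + z + W.card := by omega
    exact_mod_cast h7
  have cN : (N1.card : ℝ) ≤ (C1g A B).card := by
    have h1 : N1 ⊆ C1g A B := by
      intro p hp
      rw [hN1, mem_filter] at hp
      obtain ⟨h1, h2⟩ := mP0 p hp.1
      obtain ⟨p1, p2, _⟩ := mP p h1
      have h3 : (p : ℤ) ∣ A - B ∧ ¬ (p : ℤ) ∣ A ∧ jacobiSym A p = 1 := by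
        rcases h2 with h2 | h2 | h2
        · exfalso
          rw [hp.2] at h2
          norm_num at h2
        · exfalso
          rw [hp.2] at h2
          norm_num at h2
        · exact h2.2
      unfold C1g
      rw [mem_filter, Nat.mem_primeFactors]
      exact ⟨⟨p1, Int.natCast_dvd.1 h3.1, Int.natAbs_ne_zero.2 hd0⟩, p2, h3.2⟩
    exact_mod_cast card_le_card h1
  refine one_ok hA hB hAB hS G C (fun p hp => ?_) (fun p hp => ?_) (fun p p1 p2 p3 =>
    (mC p).2 ⟨p1, p2, p3⟩) ?_ ?_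
  · obtain ⟨h1, h2⟩ := mG p hp
    obtain ⟨p1, p2, _⟩ := mP p h1
    exact ⟨p1, p2, h2⟩
  · obtain ⟨p1, p2, p3⟩ := (mC p).1 hp
    exact ⟨p1, p2, fun hG' => (mG p hG').2.1 p3⟩
  · nlinarith [hs.1, hs.2]
  · nlinarith [hs.1, hs.2]

end Pool.Agent.R421.NR
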