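import Mathlib
import Pool.Agent.R421.NR.Hm
import Pool.Agent.R421.NR.Val

/-!
# Project NR: families with coprime parameters
-/

set_option autoImplicit false
set_option linter.all false

namespace Pool.Agent.R421.NR

open Finset

open Pool.Agent.W262.RK (PS Jr)

open Pool.Agent.W307.SE (SN)

open Pool.Agent.R431.NO (OkS)

/-! ### Values of the weight -/

section

variable {p : ℕ} [hp : Fact p.Prime]

lemma qi_zero {c : ℤ} {x y : ZMod p} (h : ¬ (y ^ 2 = (c : ZMod p) * x ^ 2 ∧ x ≠ 0)) :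
    qi c p x y = 0 := by
  unfold qi
  rw [if_neg h]

lemma qi_one {c : ℤ} {x y : ZMod p} (h : y ^ 2 = (c : ZMod p) * x ^ 2 ∧ x ≠ 0) :
    qi c p x y = 1 := by
  unfold qi
  rw [if_pos h]

/-- the value of the weight -/
lemma hm_val (κ : ℤ) (Cp Cm : Finset ℤ) (hD1 : ∀ c ∈ Cp ∪ Cm, ¬ (p : ℤ) ∣ c)
    (hD2 : ∀ c ∈ Cp ∪ Cm, ∀ c' ∈ Cp ∪ Cm, c ≠ c' → ¬ (p : ℤ) ∣ c - c')
    (hD3 : Disjoint Cp Cm) (x y : ZMod p) (hxy : ¬ (x = 0 ∧ y = 0)) :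
    (x = 0 ∧ y ≠ 0 ∧ hm κ Cp Cm p x y = 1) ∨
    (x ≠ 0 ∧ y = 0 ∧ ((jacobiSym κ p = 1 ∧ hm κ Cp Cm p x y = 1) ∨
      (jacobiSym κ p ≠ 1 ∧ hm κ Cp Cm p x y = 0))) ∨
    (x ≠ 0 ∧ y ≠ 0 ∧ ((∃ c ∈ Cp, y ^ 2 = (c : ZMod p) * x ^ 2 ∧ hm κ Cp Cm p x y = 1) ∨
      (∃ c ∈ Cm, y ^ 2 = (c : ZMod p) * x ^ 2 ∧ hm κ Cp Cm p x y = -1) ∨
      ((∀ c ∈ Cp ∪ Cm, y ^ 2 ≠ (c : ZMod p) * x ^ 2) ∧ hm κ Cp Cm p x y = 0))) := by
  classical
  have hc0 : ∀ c ∈ Cp ∪ Cm, (c : ZMod p) ≠ 0 := fun c hc h =>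
    hD1 c hc ((ZMod.intCast_zmod_eq_zero_iff_dvd _ _).1 h)
  by_cases hx : x = 0
  · left
    have hy : y ≠ 0 := fun h => hxy ⟨hx, h⟩
    refine ⟨hx, hy, ?_⟩
    unfold hm
    rw [if_pos ⟨hx, hy⟩, if_neg fun h => hy h.1,
      sum_eq_zero fun c _ => qi_zero fun h => h.2 hx,
      sum_eq_zero fun c _ => qi_zero fun h => h.2 hx]
    ring
  right
  by_cases hy : y = 0
  · left
    refine ⟨hx, hy, ?_⟩
    have hq : ∀ c ∈ Cp ∪ Cm, qi c p x y = 0 := by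
      intro c hc
      apply qi_zero
      rintro ⟨h1, _⟩
      rw [hy, zero_pow two_ne_zero] at h1
      exact (mul_ne_zero (hc0 c hc) (pow_ne_zero 2 hx)) h1.symm
    by_cases hj : jacobiSym κ p = 1
    · left
      refine ⟨hj, ?_⟩
      unfold hm
      rw [if_neg fun h => hx h.1, if_pos ⟨hy, hx, hj⟩,
        sum_eq_zero fun c hc => hq c (mem_union_left _ hc),
        sum_eq_zero fun c hc => hq c (mem_union_right _ hc)]
      ring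
    · right
      refine ⟨hj, ?_⟩
      unfold hm
      rw [if_neg fun h => hx h.1, if_neg fun h => hj h.2.2,
        sum_eq_zero fun c hc => hq c (mem_union_left _ hc),
        sum_eq_zero fun c hc => hq c (mem_union_right _ hc)]
      ring
  right
  refine ⟨hx, hy, ?_⟩
  have huniq : ∀ c ∈ Cp ∪ Cm, ∀ c' ∈ Cp ∪ Cm, y ^ 2 = (c : ZMod p) * x ^ 2 → c' ≠ c →
      qi c' p x y = 0 := by
    intro c hc c' hc' h1 h2
    apply qi_zero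
    rintro ⟨h3, _⟩
    rw [h1] at h3
    have h4 := mul_right_cancel₀ (pow_ne_zero 2 hx) h3
    apply hD2 c hc c' hc' (Ne.symm h2)
    rw [← ZMod.intCast_zmod_eq_zero_iff_dvd]
    push_cast
    rw [h4, sub_self]
  by_cases h1 : ∃ c ∈ Cp, y ^ 2 = (c : ZMod p) * x ^ 2
  · left
    obtain ⟨c, hc, h2⟩ := h1
    refine ⟨c, hc, h2, ?_⟩
    unfold hm
    rw [if_neg fun h => hx h.1, if_neg fun h => hy h.1, sum_eq_single c, qi_one ⟨h2, hx⟩,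
      sum_eq_zero]
    · ring
    · intro c' hc'
      refine huniq c (mem_union_left _ hc) c' (mem_union_right _ hc') h2 ?_
      rintro rfl
      exact (disjoint_left.1 hD3) hc hc'
    · intro c' hc' hne
      exact huniq c (mem_union_left _ hc) c' (mem_union_left _ hc') h2 hne
    · intro h
      exact absurd hc h
  right
  by_cases h3 : ∃ c ∈ Cm, y ^ 2 = (c : ZMod p) * x ^ 2
  · left
    obtain ⟨c, hc, h2⟩ := h3
    refine ⟨c, hc, h2, ?_⟩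
    unfold hm
    rw [if_neg fun h => hx h.1, if_neg fun h => hy h.1, sum_eq_zero, sum_eq_single c,
      qi_one ⟨h2, hx⟩]
    · ring
    · intro c' hc' hne
      exact huniq c (mem_union_right _ hc) c' (mem_union_right _ hc') h2 hne
    · intro h
      exact absurd hc h
    · intro c' hc'
      refine huniq c (mem_union_right _ hc) c' (mem_union_left _ hc') h2 ?_
      rintro rfl
      exact (disjoint_left.1 hD3) hc' hc
  right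
  have h4 : ∀ c ∈ Cp ∪ Cm, y ^ 2 ≠ (c : ZMod p) * x ^ 2 := by
    intro c hc h
    rcases mem_union.1 hc with hc | hc
    · exact h1 ⟨c, hc, h⟩
    · exact h3 ⟨c, hc, h⟩
  refine ⟨h4, ?_⟩
  unfold hm
  rw [if_neg fun h => hx h.1, if_neg fun h => hy h.1,
    sum_eq_zero fun c hc => qi_zero fun h => h4 c (mem_union_left _ hc) h.1,
    sum_eq_zero fun c hc => qi_zero fun h => h4 c (mem_union_right _ hc) h.1]
  ring

/-- the value at `p`, for coprime parameters -/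
theorem fv_of (κ : ℤ) (Cp Cm : Finset ℤ) (hκ : ¬ (p : ℤ) ∣ κ)
    (hD1 : ∀ c ∈ Cp ∪ Cm, ¬ (p : ℤ) ∣ c)
    (hD2 : ∀ c ∈ Cp ∪ Cm, ∀ c' ∈ Cp ∪ Cm, c ≠ c' → ¬ (p : ℤ) ∣ c - c')
    (hD3 : Disjoint Cp Cm) {m n A B : ℤ} (hmn : IsCoprime m n)
    (ha : (p : ℤ) ∣ m → ¬ (p : ℤ) ∣ n → Gc A B p)
    (hb : ¬ (p : ℤ) ∣ m → (p : ℤ) ∣ n → jacobiSym κ p = 1 → Gc A B p)
    (hb' : ¬ (p : ℤ) ∣ m → (p : ℤ) ∣ n → jacobiSym κ p = -1 → ¬ (p : ℤ) ∣ A - B ∧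
      (NS A B p ∨ NS B A p))
    (hc : ∀ c ∈ Cp, ¬ (p : ℤ) ∣ m → ¬ (p : ℤ) ∣ n → (p : ℤ) ∣ n ^ 2 - c * m ^ 2 → Gc A B p)
    (hd : ∀ c ∈ Cm, ¬ (p : ℤ) ∣ m → ¬ (p : ℤ) ∣ n → (p : ℤ) ∣ n ^ 2 - c * m ^ 2 →
      (p : ℤ) ∣ A - B ∧ ¬ (p : ℤ) ∣ A ∧ jacobiSym A p = 1)
    (he : ¬ (p : ℤ) ∣ m → ¬ (p : ℤ) ∣ n → (∀ c ∈ Cp ∪ Cm, ¬ (p : ℤ) ∣ n ^ 2 - c * m ^ 2) →
      ¬ (p : ℤ) ∣ A - B ∧ ¬ (p : ℤ) ∣ A * B) :
    FV A B p (hm κ Cp Cm p (m : ZMod p) (n : ZMod p)) := by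
  have hz : ∀ x : ℤ, (x : ZMod p) = 0 ↔ (p : ℤ) ∣ x := fun x =>
    ZMod.intCast_zmod_eq_zero_iff_dvd _ _
  have hq : ∀ c : ℤ, (n : ZMod p) ^ 2 = (c : ZMod p) * (m : ZMod p) ^ 2 ↔
      (p : ℤ) ∣ n ^ 2 - c * m ^ 2 := by
    intro c
    rw [← hz]
    push_cast
    rw [sub_eq_zero]
  have hxy : ¬ ((m : ZMod p) = 0 ∧ (n : ZMod p) = 0) := by
    rw [hz, hz]
    rintro ⟨h1, h2⟩
    obtain ⟨u, v, huv⟩ := hmn
    have h3 : (p : ℤ) ∣ 1 := by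
      rw [← huv]
      exact dvd_add (h1.mul_left _) (h2.mul_left _)
    exact (Nat.prime_iff_prime_int.1 hp.out).not_unit (isUnit_of_dvd_one h3)
  rcases hm_val κ Cp Cm hD1 hD2 hD3 (m : ZMod p) (n : ZMod p) hxy with
    ⟨h1, h2, h3⟩ | ⟨h1, h2, h3⟩ | ⟨h1, h2, h3⟩
  · rw [Ne, hz] at h2
    rw [hz] at h1
    exact Or.inl ⟨h3, ha h1 h2⟩
  · rw [Ne, hz] at h1
    rw [hz] at h2
    rcases h3 with ⟨h3, h4⟩ | ⟨h3, h4⟩
    · exact Or.inl ⟨h4, hb h1 h2 h3⟩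
    · have h6 : jacobiSym κ p = -1 := by
        have e0 : (κ : ZMod p) ≠ 0 := fun h => hκ ((hz _).1 h)
        rw [← jacobiSym.legendreSym.to_jacobiSym] at h3 ⊢
        exact (legendreSym.eq_one_or_neg_one p e0).resolve_left h3
      exact Or.inr (Or.inl ⟨h4, (hb' h1 h2 h6).1, Or.inr (hb' h1 h2 h6).2⟩)
  · rw [Ne, hz] at h1 h2
    rcases h3 with ⟨c, hc1, h3, h4⟩ | ⟨c, hc1, h3, h4⟩ | ⟨h3, h4⟩
    · exact Or.inl ⟨h4, hc c hc1 h1 h2 ((hq c).1 h3)⟩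
    · exact Or.inr (Or.inr ⟨h4, hd c hc1 h1 h2 ((hq c).1 h3)⟩)
    · have h5 := he h1 h2 fun c hc' h => h3 c hc' ((hq c).2 h)
      exact Or.inr (Or.inl ⟨h4, h5.1, Or.inl h5.2⟩)

/-! ### Helpers -/

lemma jac_mul {z κ w : ℤ} (h : (p : ℤ) ∣ z - κ * w ^ 2) (hw : ¬ (p : ℤ) ∣ w) :
    jacobiSym z p = jacobiSym κ p := by
  have hw0 : (w : ZMod p) ≠ 0 := fun h' => hw ((ZMod.intCast_zmod_eq_zero_iff_dvd _ _).1 h')
  have e : (z : ZMod p) = (κ : ZMod p) * (w : ZMod p) ^ 2 := by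
    have := (ZMod.intCast_zmod_eq_zero_iff_dvd (z - κ * w ^ 2) p).2 h
    push_cast at this
    exact sub_eq_zero.1 this
  rw [← jacobiSym.legendreSym.to_jacobiSym, ← jacobiSym.legendreSym.to_jacobiSym]
  unfold legendreSym
  rw [e, map_mul, quadraticChar_sq_one' hw0, mul_one]

lemma jac_one {z w : ℤ} (h : (p : ℤ) ∣ z - w ^ 2) (hw : ¬ (p : ℤ) ∣ w) :
    jacobiSym z p = 1 := by
  rw [jac_mul (κ := 1) (w := w) (by rw [one_mul]; exact h) hw, jacobiSym.one_left]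

lemma even_sq_mul {u w : ℤ} (hu : u ≠ 0) (hw : ¬ (p : ℤ) ∣ w) :
    Even (padicValInt p (u ^ 2 * w)) := by
  have hw0 : w ≠ 0 := by
    rintro rfl
    exact hw (dvd_zero _)
  rw [pow_two, padicValInt.mul (mul_ne_zero hu hu) hw0, padicValInt.mul hu hu,
    padicValInt.eq_zero_of_not_dvd hw]
  exact ⟨padicValInt p u, by ring⟩

lemma val_one {w : ℤ} (h1 : (p : ℤ) ∣ w) (h2 : ¬ (p : ℤ) ^ 2 ∣ w) : padicValInt p w = 1 := by
  have hw0 : w ≠ 0 := by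
    rintro rfl
    exact h2 (dvd_zero _)
  have h3 : 1 ≤ padicValInt p w := by
    have := (padicValInt_dvd_iff (p := p) 1 w).1 (by rw [pow_one]; exact h1)
    exact this.resolve_left hw0
  have h4 : ¬ 2 ≤ padicValInt p w := fun h => h2 ((padicValInt_dvd_iff (p := p) 2 w).2 (Or.inr h))
  omega

lemma nd_mul {u v : ℤ} (h1 : ¬ (p : ℤ) ∣ u) (h2 : ¬ (p : ℤ) ∣ v) : ¬ (p : ℤ) ∣ u * v := by
  intro h
  rcases (Nat.prime_iff_prime_int.1 hp.out).dvd_or_dvd h with h | h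
  · exact h1 h
  · exact h2 h

lemma nd_pow {u : ℤ} (h1 : ¬ (p : ℤ) ∣ u) (k : ℕ) : ¬ (p : ℤ) ∣ u ^ k := fun h =>
  h1 ((Nat.prime_iff_prime_int.1 hp.out).dvd_of_dvd_pow h)

lemma nd_small {k : ℤ} (hk0 : k ≠ 0) (hk : k.natAbs < p) : ¬ (p : ℤ) ∣ k := by
  intro h
  have := Nat.le_of_dvd (Int.natAbs_pos.2 hk0) (Int.natCast_dvd.1 h)
  omega

lemma nd_sub {u v : ℤ} (h1 : ¬ (p : ℤ) ∣ v) (h2 : (p : ℤ) ∣ u - v) : ¬ (p : ℤ) ∣ u := fun h =>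
  h1 (by have := dvd_sub h h2; simpa using this)

end

/-! ### The exceptional primes -/

open Classical in
/-- the primes whose square divides the value -/
noncomputable def Ex (c : ℤ) (z y : ℕ) (t : ℤ × ℤ) : Finset ℕ :=
  (PS z y).filter (fun p => (p : ℤ) ^ 2 ∣ t.2 ^ 2 - c * t.1 ^ 2)

lemma ex_one {p : ℕ} (hp : p.Prime) (h2 : p ≠ 2) {c : ℤ} (hc : ¬ (p : ℤ) ∣ c) {m n n' : ℤ}
    (hmn : IsCoprime m n) (h : (p : ℤ) ^ 2 ∣ n ^ 2 - c * m ^ 2)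
    (h' : (p : ℤ) ^ 2 ∣ n' ^ 2 - c * m ^ 2) : (p : ℤ) ^ 2 ∣ n' - n ∨ (p : ℤ) ^ 2 ∣ n' + n := by
  haveI : Fact p.Prime := ⟨hp⟩
  have hpi := Nat.prime_iff_prime_int.1 hp
  have hn : ¬ (p : ℤ) ∣ n := by
    intro hn
    have h1 : (p : ℤ) ∣ c * m ^ 2 := by
      have h3 : (p : ℤ) ∣ n ^ 2 - c * m ^ 2 := (Dvd.intro_left _ (by ring : (p : ℤ) * p = _)).trans h
      have h4 : (p : ℤ) ∣ n ^ 2 := hn.trans (Dvd.intro_left _ (by ring : n * n = n ^ 2))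
      have := dvd_sub h4 h3
      simpa using this
    have h5 : ¬ (p : ℤ) ∣ m := by
      intro hm
      obtain ⟨u, v, huv⟩ := hmn
      have h3 : (p : ℤ) ∣ 1 := by
        rw [← huv]
        exact dvd_add (hm.mul_left _) (hn.mul_left _)
      exact hpi.not_unit (isUnit_of_dvd_one h3)
    exact nd_mul hc (nd_pow h5 2) h1
  have h1 : (p : ℤ) ^ 2 ∣ (n' - n) * (n' + n) := by
    have := dvd_sub h' h
    have e : n' ^ 2 - c * m ^ 2 - (n ^ 2 - c * m ^ 2) = (n' - n) * (n' + n) := by ring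
    rwa [e] at this
  by_cases h3 : (p : ℤ) ∣ n' - n
  · left
    have h4 : ¬ (p : ℤ) ∣ n' + n := by
      intro h5
      have h6 : (p : ℤ) ∣ 2 * n := by
        have := dvd_sub h5 h3
        have e : n' + n - (n' - n) = 2 * n := by ring
        rwa [e] at this
      refine nd_mul ?_ hn h6
      apply nd_small two_ne_zero
      have := hp.two_le
      have : (2 : ℤ).natAbs = 2 := rfl
      omega
    have hcop : IsCoprime ((p : ℤ) ^ 2) (n' + n) :=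
      IsCoprime.pow_left ((Int.prime_iff_natAbs_prime.2 (by simpa using hp)).coprime_iff_not_dvd.2 h4)
    exact hcop.dvd_of_dvd_mul_right h1
  · right
    have hcop : IsCoprime ((p : ℤ) ^ 2) (n' - n) :=
      IsCoprime.pow_left ((Int.prime_iff_natAbs_prime.2 (by simpa using hp)).coprime_iff_not_dvd.2 h3)
    exact hcop.dvd_of_dvd_mul_left h1

open Classical in
/-- the count of the pairs with an exceptional prime -/
lemma ex_cnt1 {p : ℕ} (hp : p.Prime) (h2 : p ≠ 2) {c : ℤ} (hc : ¬ (p : ℤ) ∣ c) (a b : ℤ)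
    (K L : ℕ) (hL : p ^ 2 ≤ L) :
    (((Ioc a (a + K) ×ˢ Ioc b (b + L)).filter (fun t : ℤ × ℤ => IsCoprime t.1 t.2 ∧
      (p : ℤ) ^ 2 ∣ t.2 ^ 2 - c * t.1 ^ 2)).card : ℝ) ≤ 4 * ((K : ℝ) * L) * (1 / (p : ℝ) ^ 2) := by
  have e1 : ((Ioc a (a + K) ×ˢ Ioc b (b + L)).filter (fun t : ℤ × ℤ => IsCoprime t.1 t.2 ∧
      (p : ℤ) ^ 2 ∣ t.2 ^ 2 - c * t.1 ^ 2)).card = ∑ m ∈ Ioc a (a + K),
        ((Ioc b (b + L)).filter (fun n : ℤ => IsCoprime m n ∧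
          (p : ℤ) ^ 2 ∣ n ^ 2 - c * m ^ 2)).card := by
    rw [card_filter, sum_product]
    refine sum_congr rfl fun m _ => ?_
    rw [card_filter]
  have e2 : ∀ m ∈ Ioc a (a + K), (((Ioc b (b + L)).filter (fun n : ℤ => IsCoprime m n ∧
      (p : ℤ) ^ 2 ∣ n ^ 2 - c * m ^ 2)).card : ℝ) ≤ 4 * L / (p : ℝ) ^ 2 := by
    intro m _
    by_cases h : ∃ n, n ∈ (Ioc b (b + L)).filter (fun n : ℤ => IsCoprime m n ∧
      (p : ℤ) ^ 2 ∣ n ^ 2 - c * m ^ 2)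
    · obtain ⟨n, hn⟩ := h
      rw [mem_filter] at hn
      have hsub : (Ioc b (b + L)).filter (fun n : ℤ => IsCoprime m n ∧
          (p : ℤ) ^ 2 ∣ n ^ 2 - c * m ^ 2) ⊆
          (Ioc b (b + L)).filter (fun n' : ℤ => ((p ^ 2 : ℕ) : ℤ) ∣ n' - n) ∪
          (Ioc b (b + L)).filter (fun n' : ℤ => ((p ^ 2 : ℕ) : ℤ) ∣ n' - (-n)) := by
        intro n' hn'
        rw [mem_filter] at hn'
        rw [mem_union, mem_filter, mem_filter]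
        push_cast
        rw [sub_neg_eq_add]
        rcases ex_one hp h2 hc hn.2.1 hn.2.2 hn'.2.2 with h3 | h3
        · exact Or.inl ⟨hn'.1, h3⟩
        · exact Or.inr ⟨hn'.1, h3⟩
      have h4 := (card_le_card hsub).trans (card_union_le _ _)
      have h5 := cls_le (p ^ 2) (pow_pos hp.pos 2) b L hL n
      have h6 := cls_le (p ^ 2) (pow_pos hp.pos 2) b L hL (-n)
      push_cast at h5 h6 h4
      have h7 : (((Ioc b (b + L)).filter (fun n : ℤ => IsCoprime m n ∧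
          (p : ℤ) ^ 2 ∣ n ^ 2 - c * m ^ 2)).card : ℝ) ≤
          (((Ioc b (b + L)).filter (fun n' : ℤ => (p : ℤ) ^ 2 ∣ n' - n)).card : ℝ) +
          (((Ioc b (b + L)).filter (fun n' : ℤ => (p : ℤ) ^ 2 ∣ n' - (-n))).card : ℝ) := by
        exact_mod_cast h4
      have h8 : 4 * (L : ℝ) / (p : ℝ) ^ 2 = 2 * L / (p : ℝ) ^ 2 + 2 * L / (p : ℝ) ^ 2 := by ring
      rw [h8]
      linarith
    · have : (Ioc b (b + L)).filter (fun n : ℤ => IsCoprime m n ∧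
          (p : ℤ) ^ 2 ∣ n ^ 2 - c * m ^ 2) = ∅ := eq_empty_of_forall_notMem fun n hn => h ⟨n, hn⟩
      rw [this, card_empty, Nat.cast_zero]
      positivity
  rw [e1, Nat.cast_sum]
  refine (sum_le_sum e2).trans (le_of_eq ?_)
  rw [sum_const, nsmul_eq_mul, Int.card_Ioc]
  have : (a + K - a).toNat = K := by omega
  rw [this]
  ring

/-- the average number of the exceptional primes -/
lemma ex_cnt (c : ℤ) (z y : ℕ) (hz : 2 ≤ z) (hc : ∀ p : ℕ, p.Prime → z < p → ¬ (p : ℤ) ∣ c)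
    (a b : ℤ) (K L : ℕ) (hL : y ^ 2 ≤ L) (S : Finset (ℤ × ℤ))
    (hS : ∀ t ∈ S, t ∈ Ioc a (a + K) ×ˢ Ioc b (b + L) ∧ IsCoprime t.1 t.2) :
    ∑ t ∈ S, ((Ex c z y t).card : ℝ) ≤ 4 * ((K : ℝ) * L) := by
  classical
  have e1 : ∑ t ∈ S, ((Ex c z y t).card : ℝ) =
      ∑ p ∈ PS z y, ((S.filter (fun t => (p : ℤ) ^ 2 ∣ t.2 ^ 2 - c * t.1 ^ 2)).card : ℝ) := by
    unfold Ex
    simp only [card_filter, Nat.cast_sum]
    exact sum_comm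
  rw [e1]
  calc ∑ p ∈ PS z y, ((S.filter (fun t => (p : ℤ) ^ 2 ∣ t.2 ^ 2 - c * t.1 ^ 2)).card : ℝ)
      ≤ ∑ p ∈ PS z y, 4 * ((K : ℝ) * L) * (1 / (p : ℝ) ^ 2) := by
        refine sum_le_sum fun p hp => ?_
        unfold PS at hp
        rw [mem_filter, mem_Ioc] at hp
        refine le_trans ?_ (ex_cnt1 hp.2 (by omega) (hc p hp.2 hp.1.1) a b K L
          ((Nat.pow_le_pow_left hp.1.2 2).trans hL))
        exact_mod_cast card_le_card (fun t ht => by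
          rw [mem_filter] at ht ⊢
          exact ⟨(hS t ht.1).1, (hS t ht.1).2, ht.2⟩)
    _ = 4 * ((K : ℝ) * L) * ∑ p ∈ PS z y, 1 / (p : ℝ) ^ 2 := (mul_sum _ _ _).symm
    _ ≤ 4 * ((K : ℝ) * L) * 1 :=
      mul_le_mul_of_nonneg_left (sum_inv_sq z y (by omega)) (by positivity)
    _ = _ := mul_one _

end Pool.Agent.R421.NR
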