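import Mathlib
import Pool.Agent.R421.NR.Cop

/-!
# Project NR: the local data of the three families
-/

set_option autoImplicit false
set_option linter.all false

namespace Pool.Agent.R421.NR

open Finset

open Pool.Agent.W262.RK (PS Jr)

/-! ### Points of order eight -/

/-- the numbers `A`, `B` for points of order eight -/
def A8 (m n : ℤ) : ℤ := m ^ 4
def B8 (m n : ℤ) : ℤ := n ^ 2 * (2 * m ^ 2 - n ^ 2)

lemma d8 (m n : ℤ) : A8 m n - B8 m n = (n ^ 2 - m ^ 2) ^ 2 := by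
  unfold A8 B8
  ring

lemma small_D (D : Finset ℤ) (hD : ∀ c ∈ D, c.natAbs ≤ 3 ∧ c ≠ 0) {p : ℕ} (hp : 10 < p) :
    (∀ c ∈ D, ¬ (p : ℤ) ∣ c) ∧ ∀ c ∈ D, ∀ c' ∈ D, c ≠ c' → ¬ (p : ℤ) ∣ c - c' := by
  have h : ∀ k : ℤ, k ≠ 0 → k.natAbs ≤ 6 → ¬ (p : ℤ) ∣ k := by
    intro k hk hk6 hd
    have := Nat.le_of_dvd (Int.natAbs_pos.2 hk) (Int.natCast_dvd.1 hd)
    omega
  refine ⟨fun c hc => h c (hD c hc).2 (by have := (hD c hc).1; omega), fun c hc c' hc' hne =>
    h _ (sub_ne_zero.2 hne) ?_⟩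
  have h1 := (hD c hc).1
  have h2 := (hD c' hc').1
  omega

section

variable {p : ℕ} [hp : Fact p.Prime]

theorem fv8 (hp10 : 10 < p) {m n : ℤ} (hmn : IsCoprime m n) (hn0 : n ≠ 0)
    (hw0 : 2 * m ^ 2 - n ^ 2 ≠ 0)
    (hex : ¬ (p : ℤ) ^ 2 ∣ n ^ 2 - 2 * m ^ 2) :
    FV (A8 m n) (B8 m n) p (hm (-1) {2} {1} p (m : ZMod p) (n : ZMod p)) := by
  have h2 : ¬ (p : ℤ) ∣ 2 := nd_small two_ne_zero (by have : (2 : ℤ).natAbs = 2 := rfl; omega)
  obtain ⟨D1, D2⟩ := small_D (({2} : Finset ℤ) ∪ {1}) (by decide) hp10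
  refine fv_of (-1) {2} {1} (nd_small (by norm_num) (by
    have : (-1 : ℤ).natAbs = 1 := rfl
    omega)) D1 D2 (by decide) hmn ?_ ?_ ?_ ?_ ?_ ?_
  · intro hm hn
    refine ⟨?_, Or.inr (Or.inr (Or.inl ⟨?_, ?_⟩))⟩
    · rw [d8]
      refine nd_pow ?_ 2
      obtain ⟨k, rfl⟩ := hm
      intro h
      refine nd_pow hn 2 ?_
      have := dvd_add h (Dvd.intro (p * k ^ 2) rfl : (p : ℤ) ∣ p * (p * k ^ 2))
      have e : n ^ 2 - (↑p * k) ^ 2 + ↑p * (↑p * k ^ 2) = n ^ 2 := by ring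
      rwa [e] at this
    · unfold A8
      obtain ⟨k, rfl⟩ := hm
      exact ⟨p ^ 2 * k ^ 4, by ring⟩
    · apply jac_one (w := n ^ 2) _ (nd_pow hn 2)
      obtain ⟨k, rfl⟩ := hm
      unfold B8
      exact ⟨-(2 * n ^ 2 * (p * k ^ 2)), by ring⟩
  · intro hm hn hj
    refine ⟨?_, Or.inr (Or.inr (Or.inr ⟨?_, ?_⟩))⟩
    · rw [d8]
      refine nd_pow ?_ 2
      obtain ⟨k, rfl⟩ := hn
      intro h
      refine nd_pow hm 2 ?_
      have := dvd_sub (Dvd.intro (p * k ^ 2) rfl : (p : ℤ) ∣ p * (p * k ^ 2)) h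
      have e : ↑p * (↑p * k ^ 2) - ((↑p * k) ^ 2 - m ^ 2) = m ^ 2 := by ring
      rwa [e] at this
    · unfold B8
      obtain ⟨k, rfl⟩ := hn
      exact ⟨k ^ 2 * (2 * m ^ 2 - (p * k) ^ 2), by ring⟩
    · rw [← hj]
      apply jac_mul (w := m ^ 2) _ (nd_pow hm 2)
      unfold A8
      exact ⟨0, by ring⟩
  · intro hm hn hj
    refine ⟨?_, Or.inr ⟨?_, ?_, ?_, ?_⟩⟩
    · rw [d8]
      refine nd_pow ?_ 2
      obtain ⟨k, rfl⟩ := hn
      intro h
      refine nd_pow hm 2 ?_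
      have := dvd_sub (Dvd.intro (p * k ^ 2) rfl : (p : ℤ) ∣ p * (p * k ^ 2)) h
      have e : ↑p * (↑p * k ^ 2) - ((↑p * k) ^ 2 - m ^ 2) = m ^ 2 := by ring
      rwa [e] at this
    · unfold B8
      obtain ⟨k, rfl⟩ := hn
      exact ⟨p * k ^ 2 * (2 * m ^ 2 - (p * k) ^ 2), by ring⟩
    · unfold A8
      exact nd_pow hm 4
    · unfold B8
      apply even_sq_mul hn0
      obtain ⟨k, rfl⟩ := hn
      intro h
      refine nd_mul h2 (nd_pow hm 2) ?_
      have := dvd_add h (Dvd.intro (p * k ^ 2) rfl : (p : ℤ) ∣ p * (p * k ^ 2))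
      have e : 2 * m ^ 2 - (↑p * k) ^ 2 + ↑p * (↑p * k ^ 2) = 2 * m ^ 2 := by ring
      rwa [e] at this
    · rw [← hj]
      apply jac_mul (w := m ^ 2) _ (nd_pow hm 2)
      unfold A8
      exact ⟨0, by ring⟩
  · intro c hc hm hn hd
    rw [mem_singleton] at hc
    subst hc
    refine ⟨?_, Or.inr (Or.inl ?_)⟩
    · rw [d8]
      refine nd_pow ?_ 2
      intro h
      refine nd_pow hm 2 ?_
      have := dvd_sub h hd
      have e : n ^ 2 - m ^ 2 - (n ^ 2 - 2 * m ^ 2) = m ^ 2 := by ring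
      rwa [e] at this
    · have h1 : padicValInt p (2 * m ^ 2 - n ^ 2) = 1 := by
        apply val_one
        · have := (dvd_neg (α := ℤ)).2 hd
          have e : -(n ^ 2 - 2 * m ^ 2) = 2 * m ^ 2 - n ^ 2 := by ring
          rwa [e] at this
        · intro h
          apply hex
          have := (dvd_neg (α := ℤ)).2 h
          have e : -(2 * m ^ 2 - n ^ 2) = n ^ 2 - 2 * m ^ 2 := by ring
          rwa [e] at this
      unfold B8
      rw [padicValInt.mul (pow_ne_zero 2 hn0) hw0, h1,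
        padicValInt.eq_zero_of_not_dvd (nd_pow hn 2)]
      decide
  · intro c hc hm hn hd
    rw [mem_singleton] at hc
    subst hc
    refine ⟨?_, ?_, ?_⟩
    · rw [d8]
      rw [one_mul] at hd
      exact dvd_pow hd two_ne_zero
    · unfold A8
      exact nd_pow hm 4
    · apply jac_one (w := m ^ 2) _ (nd_pow hm 2)
      unfold A8
      exact ⟨0, by ring⟩
  · intro hm hn hall
    have a1 := hall 2 (by decide)
    have a2 := hall 1 (by decide)
    rw [one_mul] at a2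
    refine ⟨?_, ?_⟩
    · rw [d8]
      exact nd_pow a2 2
    · unfold A8 B8
      refine nd_mul (nd_pow hm 4) (nd_mul (nd_pow hn 2) ?_)
      intro h
      apply a1
      have := (dvd_neg (α := ℤ)).2 h
      have e : -(2 * m ^ 2 - n ^ 2) = n ^ 2 - 2 * m ^ 2 := by ring
      rwa [e] at this

/-! ### Points of order twelve -/

/-- the numbers `A`, `B` for points of order twelve -/
def A12 (m n : ℤ) : ℤ := (4 * m ^ 3 * n) ^ 2
def B12 (m n : ℤ) : ℤ := (m ^ 2 + n ^ 2) ^ 3 * (3 * m ^ 2 - n ^ 2)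

lemma d12 (m n : ℤ) : A12 m n - B12 m n = (n ^ 2 - m ^ 2) ^ 3 * (n ^ 2 + 3 * m ^ 2) := by
  unfold A12 B12
  ring

theorem fv12 (hp10 : 10 < p) {m n : ℤ} (hmn : IsCoprime m n) (hm0 : m ≠ 0) (hn0 : n ≠ 0)
    (hu0 : m ^ 2 + n ^ 2 ≠ 0) (hw0 : 3 * m ^ 2 - n ^ 2 ≠ 0)
    (hex1 : ¬ (p : ℤ) ^ 2 ∣ n ^ 2 - (-1) * m ^ 2) (hex2 : ¬ (p : ℤ) ^ 2 ∣ n ^ 2 - 3 * m ^ 2) :
    FV (A12 m n) (B12 m n) p (hm (-3) {-1, 3} {1, -3} p (m : ZMod p) (n : ZMod p)) := by
  have h2 : ¬ (p : ℤ) ∣ 2 := nd_small two_ne_zero (by have : (2 : ℤ).natAbs = 2 := rfl; omega)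
  have h3 : ¬ (p : ℤ) ∣ 3 := nd_small three_ne_zero (by have : (3 : ℤ).natAbs = 3 := rfl; omega)
  have h4 : ¬ (p : ℤ) ∣ 4 := nd_small four_ne_zero (by have : (4 : ℤ).natAbs = 4 := rfl; omega)
  obtain ⟨D1, D2⟩ := small_D (({-1, 3} : Finset ℤ) ∪ {1, -3}) (by decide) hp10
  have hAB1 : ∀ u v : ℤ, ¬ (p : ℤ) ∣ u → ¬ (p : ℤ) ∣ v → (n ^ 2 - m ^ 2) = u →
      (n ^ 2 + 3 * m ^ 2) = v → ¬ (p : ℤ) ∣ A12 m n - B12 m n := by
    intro u v hu hv e1 e2
    rw [d12, e1, e2]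
    exact nd_mul (nd_pow hu 3) hv
  refine fv_of (-3) {-1, 3} {1, -3} (nd_small (by norm_num) (by
    have : (-3 : ℤ).natAbs = 3 := rfl
    omega)) D1 D2 (by decide) hmn ?_ ?_ ?_ ?_ ?_ ?_
  · intro hm hn
    refine ⟨?_, Or.inr (Or.inr (Or.inl ⟨?_, ?_⟩))⟩
    · refine hAB1 _ _ ?_ ?_ rfl rfl
      · refine fun h => nd_pow hn 2 ?_
        have := dvd_add h (hm.mul_right m)
        have e : n ^ 2 - m ^ 2 + m * m = n ^ 2 := by ring
        rwa [e] at this
      · refine fun h => nd_pow hn 2 ?_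
        have := dvd_sub h (hm.mul_right (3 * m))
        have e : n ^ 2 + 3 * m ^ 2 - m * (3 * m) = n ^ 2 := by ring
        rwa [e] at this
    · unfold A12
      exact pow_dvd_pow_of_dvd (hm.trans ⟨4 * m ^ 2 * n, by ring⟩) 2
    · apply jac_one (w := n ^ 4) _ (nd_pow hn 4)
      exact hm.trans ⟨m ^ 3 * (-3 * m ^ 4 - 8 * m ^ 2 * n ^ 2 - 6 * n ^ 4), by
        unfold B12; ring⟩
  · intro hm hn hj
    refine ⟨?_, Or.inr (Or.inr (Or.inl ⟨?_, ?_⟩))⟩
    · refine hAB1 _ _ ?_ ?_ rfl rfl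
      · refine fun h => nd_pow hm 2 ?_
        have := dvd_sub (hn.mul_right n) h
        have e : n * n - (n ^ 2 - m ^ 2) = m ^ 2 := by ring
        rwa [e] at this
      · refine fun h => nd_mul h3 (nd_pow hm 2) ?_
        have := dvd_sub h (hn.mul_right n)
        have e : n ^ 2 + 3 * m ^ 2 - n * n = 3 * m ^ 2 := by ring
        rwa [e] at this
    · unfold A12
      exact pow_dvd_pow_of_dvd (hn.trans ⟨4 * m ^ 3, by ring⟩) 2
    · rw [← hj]
      apply jac_mul (w := m ^ 4) _ (nd_pow hm 4)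
      exact hn.trans ⟨n * (-8 * m ^ 6 - 6 * m ^ 4 * n ^ 2 + n ^ 6), by unfold B12; ring⟩
  · intro hm hn hj
    refine ⟨?_, Or.inl ⟨?_, ?_, ?_, ?_⟩⟩
    · refine hAB1 _ _ ?_ ?_ rfl rfl
      · refine fun h => nd_pow hm 2 ?_
        have := dvd_sub (hn.mul_right n) h
        have e : n * n - (n ^ 2 - m ^ 2) = m ^ 2 := by ring
        rwa [e] at this
      · refine fun h => nd_mul h3 (nd_pow hm 2) ?_
        have := dvd_sub h (hn.mul_right n)
        have e : n ^ 2 + 3 * m ^ 2 - n * n = 3 * m ^ 2 := by ring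
        rwa [e] at this
    · unfold A12
      exact hn.trans ⟨16 * m ^ 6 * n, by ring⟩
    · unfold B12
      refine nd_mul (nd_pow ?_ 3) ?_
      · refine fun h => nd_pow hm 2 ?_
        have := dvd_sub h (hn.mul_right n)
        have e : m ^ 2 + n ^ 2 - n * n = m ^ 2 := by ring
        rwa [e] at this
      · refine fun h => nd_mul h3 (nd_pow hm 2) ?_
        have := dvd_add h (hn.mul_right n)
        have e : 3 * m ^ 2 - n ^ 2 + n * n = 3 * m ^ 2 := by ring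
        rwa [e] at this
    · have := even_sq_mul (p := p) (u := 4 * m ^ 3 * n) (w := 1)
        (mul_ne_zero (mul_ne_zero four_ne_zero (pow_ne_zero 3 hm0)) hn0)
        (nd_small one_ne_zero (by have : (1 : ℤ).natAbs = 1 := rfl; omega))
      rw [mul_one] at this
      exact this
    · rw [← hj]
      apply jac_mul (w := m ^ 4) _ (nd_pow hm 4)
      exact hn.trans ⟨n * (-8 * m ^ 6 - 6 * m ^ 4 * n ^ 2 + n ^ 6), by unfold B12; ring⟩
  · intro c hc hm hn hd
    rw [mem_insert, mem_singleton] at hc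
    rcases hc with rfl | rfl
    · refine ⟨?_, Or.inr (Or.inl ?_)⟩
      · refine hAB1 _ _ ?_ ?_ rfl rfl
        · refine fun h => nd_mul h2 (nd_pow hm 2) ?_
          have := dvd_sub hd h
          have e : n ^ 2 - -1 * m ^ 2 - (n ^ 2 - m ^ 2) = 2 * m ^ 2 := by ring
          rwa [e] at this
        · refine fun h => nd_mul h2 (nd_pow hm 2) ?_
          have := dvd_sub h hd
          have e : n ^ 2 + 3 * m ^ 2 - (n ^ 2 - -1 * m ^ 2) = 2 * m ^ 2 := by ring
          rwa [e] at this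
      · have h1 : padicValInt p (m ^ 2 + n ^ 2) = 1 := by
          have e : m ^ 2 + n ^ 2 = n ^ 2 - -1 * m ^ 2 := by ring
          rw [e]
          exact val_one hd hex1
        have h5 : ¬ (p : ℤ) ∣ 3 * m ^ 2 - n ^ 2 := by
          refine fun h => nd_mul h4 (nd_pow hm 2) ?_
          have := dvd_add h hd
          have e : 3 * m ^ 2 - n ^ 2 + (n ^ 2 - -1 * m ^ 2) = 4 * m ^ 2 := by ring
          rwa [e] at this
        unfold B12
        rw [padicValInt.mul (pow_ne_zero 3 hu0) hw0, padicValInt.eq_zero_of_not_dvd h5]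
        have e3 : (m ^ 2 + n ^ 2) ^ 3 = (m ^ 2 + n ^ 2) * ((m ^ 2 + n ^ 2) * (m ^ 2 + n ^ 2)) := by
          ring
        rw [e3, padicValInt.mul hu0 (mul_ne_zero hu0 hu0), padicValInt.mul hu0 hu0, h1]
        decide
    · refine ⟨?_, Or.inr (Or.inl ?_)⟩
      · refine hAB1 _ _ ?_ ?_ rfl rfl
        · refine fun h => nd_mul h2 (nd_pow hm 2) ?_
          have := dvd_sub h hd
          have e : n ^ 2 - m ^ 2 - (n ^ 2 - 3 * m ^ 2) = 2 * m ^ 2 := by ring
          rwa [e] at this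
        · refine fun h => nd_mul (nd_mul h2 h3) (nd_pow hm 2) ?_
          have := dvd_sub h hd
          have e : n ^ 2 + 3 * m ^ 2 - (n ^ 2 - 3 * m ^ 2) = 2 * 3 * m ^ 2 := by ring
          rwa [e] at this
      · have h1 : padicValInt p (3 * m ^ 2 - n ^ 2) = 1 := by
          apply val_one
          · have := (dvd_neg (α := ℤ)).2 hd
            have e : -(n ^ 2 - 3 * m ^ 2) = 3 * m ^ 2 - n ^ 2 := by ring
            rwa [e] at this
          · intro h
            apply hex2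
            have := (dvd_neg (α := ℤ)).2 h
            have e : -(3 * m ^ 2 - n ^ 2) = n ^ 2 - 3 * m ^ 2 := by ring
            rwa [e] at this
        have h5 : ¬ (p : ℤ) ∣ m ^ 2 + n ^ 2 := by
          refine fun h => nd_mul h4 (nd_pow hm 2) ?_
          have := dvd_sub h hd
          have e : m ^ 2 + n ^ 2 - (n ^ 2 - 3 * m ^ 2) = 4 * m ^ 2 := by ring
          rwa [e] at this
        unfold B12
        rw [padicValInt.mul (pow_ne_zero 3 hu0) hw0, h1,
          padicValInt.eq_zero_of_not_dvd (nd_pow h5 3)]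
        decide
  · intro c hc hm hn hd
    have hA : ¬ (p : ℤ) ∣ 4 * m ^ 3 * n := nd_mul (nd_mul h4 (nd_pow hm 3)) hn
    refine ⟨?_, ?_, ?_⟩
    · rw [d12]
      rw [mem_insert, mem_singleton] at hc
      rcases hc with rfl | rfl
      · rw [one_mul] at hd
        exact (dvd_pow hd three_ne_zero).mul_right _
      · have e : n ^ 2 - -3 * m ^ 2 = n ^ 2 + 3 * m ^ 2 := by ring
        rw [e] at hd
        exact hd.mul_left _
    · unfold A12
      exact nd_pow hA 2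
    · apply jac_one (w := 4 * m ^ 3 * n) _ hA
      unfold A12
      exact ⟨0, by ring⟩
  · intro hm hn hall
    have a1 := hall 1 (by decide)
    have a2 := hall (-3) (by decide)
    have a3 := hall (-1) (by decide)
    have a4 := hall 3 (by decide)
    refine ⟨?_, ?_⟩
    · refine hAB1 _ _ ?_ ?_ rfl rfl
      · rwa [one_mul] at a1
      · have e : n ^ 2 - -3 * m ^ 2 = n ^ 2 + 3 * m ^ 2 := by ring
        rwa [e] at a2
    · unfold A12 B12
      have hA : ¬ (p : ℤ) ∣ 4 * m ^ 3 * n := nd_mul (nd_mul h4 (nd_pow hm 3)) hn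
      refine nd_mul (nd_pow hA 2) (nd_mul (nd_pow ?_ 3) ?_)
      · have e : n ^ 2 - -1 * m ^ 2 = m ^ 2 + n ^ 2 := by ring
        rwa [e] at a3
      · intro h
        apply a4
        have := (dvd_neg (α := ℤ)).2 h
        have e : -(3 * m ^ 2 - n ^ 2) = n ^ 2 - 3 * m ^ 2 := by ring
        rwa [e] at this

/-! ### Points of order four -/

theorem fv4 (hp10 : 10 < p) {s t : ℤ} (hs0 : s ≠ 0)
    (hst : ¬ ((p : ℤ) ∣ s ∧ (p : ℤ) ∣ t))
    (hex : ¬ (p : ℤ) ^ 2 ∣ s ^ 2 - 4 * t) :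
    FV (s ^ 2) (s ^ 2 - 4 * t) p (h4 p (s : ZMod p) (t : ZMod p)) := by
  have h4 : ¬ (p : ℤ) ∣ 4 := nd_small four_ne_zero (by have : (4 : ℤ).natAbs = 4 := rfl; omega)
  have hz : ∀ x : ℤ, (x : ZMod p) = 0 ↔ (p : ℤ) ∣ x := fun x =>
    ZMod.intCast_zmod_eq_zero_iff_dvd _ _
  have hd : s ^ 2 - (s ^ 2 - 4 * t) = 4 * t := by ring
  have h40 : (4 : ZMod p) ≠ 0 := by
    intro h
    apply h4
    rw [← hz]
    exact_mod_cast h
  have hmn : -(s ^ 2 - 4 * t) - t * 2 ^ 2 = s * (-s) := by ring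
  have h2 : ¬ (p : ℤ) ∣ 2 := nd_small two_ne_zero (by have : (2 : ℤ).natAbs = 2 := rfl; omega)
  by_cases hs : (p : ℤ) ∣ s
  · have ht : ¬ (p : ℤ) ∣ t := fun h => hst ⟨hs, h⟩
    have hsz := (hz s).2 hs
    have htz : (t : ZMod p) ≠ 0 := fun h => ht ((hz t).1 h)
    have hjac : jacobiSym (-(s ^ 2 - 4 * t)) p = jacobiSym t p := by
      apply jac_mul (w := 2) _ h2
      rw [hmn]
      exact hs.mul_right _
    have hnd : ¬ (p : ℤ) ∣ s ^ 2 - (s ^ 2 - 4 * t) := by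
      rw [hd]
      exact nd_mul h4 ht
    by_cases hq : IsSquare (t : ZMod p)
    · have hv : Pool.Agent.R421.NR.h4 p (s : ZMod p) (t : ZMod p) = 1 := by
        unfold Pool.Agent.R421.NR.h4 i4
        rw [if_pos ⟨hsz, htz, hq⟩, if_neg fun h => h.2 hsz, if_neg fun h => h.2 hsz]
        norm_num
      refine Or.inl ⟨hv, hnd, Or.inr (Or.inr (Or.inl ⟨pow_dvd_pow_of_dvd hs 2, ?_⟩))⟩
      rw [hjac, ← jacobiSym.legendreSym.to_jacobiSym]
      exact (legendreSym.eq_one_iff p htz).2 hq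
    · have hv : Pool.Agent.R421.NR.h4 p (s : ZMod p) (t : ZMod p) = 0 := by
        unfold Pool.Agent.R421.NR.h4 i4
        rw [if_neg fun h => hq h.2.2, if_neg fun h => h.2 hsz, if_neg fun h => h.2 hsz]
        norm_num
      refine Or.inr (Or.inl ⟨hv, hnd, Or.inr (Or.inl ⟨hs.trans ⟨s, by ring⟩, ?_, ?_, ?_⟩)⟩)
      · intro h
        have := dvd_sub (hs.mul_right s) h
        have e : s * s - (s ^ 2 - 4 * t) = 4 * t := by ring
        rw [e] at this
        exact nd_mul h4 ht this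
      · have := even_sq_mul (p := p) (u := s) (w := 1) hs0
          (nd_small one_ne_zero (by have : (1 : ℤ).natAbs = 1 := rfl; omega))
        rwa [mul_one] at this
      · rw [hjac, ← jacobiSym.legendreSym.to_jacobiSym]
        exact (legendreSym.eq_neg_one_iff p).2 hq
  · have hsz : (s : ZMod p) ≠ 0 := fun h => hs ((hz s).1 h)
    have hq4 : ((s : ZMod p) ^ 2 = 4 * (t : ZMod p)) ↔ (p : ℤ) ∣ s ^ 2 - 4 * t := by
      rw [← hz]
      push_cast
      rw [sub_eq_zero]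
    by_cases ht : (p : ℤ) ∣ t
    · have htz := (hz t).2 ht
      have hv : Pool.Agent.R421.NR.h4 p (s : ZMod p) (t : ZMod p) = -1 := by
        unfold Pool.Agent.R421.NR.h4 i4
        rw [if_neg fun h => hsz h.1, if_neg, if_pos ⟨htz, hsz⟩]
        · norm_num
        · rintro ⟨h, _⟩
          rw [htz, mul_zero] at h
          exact hsz (pow_eq_zero_iff two_ne_zero |>.1 h)
      refine Or.inr (Or.inr ⟨hv, ?_, nd_pow hs 2, jac_one (w := s) ⟨0, by ring⟩ hs⟩)
      rw [hd]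
      exact ht.mul_left _
    · have htz : (t : ZMod p) ≠ 0 := fun h => ht ((hz t).1 h)
      have hnd : ¬ (p : ℤ) ∣ s ^ 2 - (s ^ 2 - 4 * t) := by
        rw [hd]
        exact nd_mul h4 ht
      by_cases h5 : (p : ℤ) ∣ s ^ 2 - 4 * t
      · have hv : Pool.Agent.R421.NR.h4 p (s : ZMod p) (t : ZMod p) = 1 := by
          unfold Pool.Agent.R421.NR.h4 i4
          rw [if_neg fun h => hsz h.1, if_pos ⟨hq4.2 h5, hsz⟩, if_neg fun h => htz h.1]
          norm_num
        refine Or.inl ⟨hv, hnd, Or.inr (Or.inl ?_)⟩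
        rw [val_one h5 hex]
        decide
      · have hv : Pool.Agent.R421.NR.h4 p (s : ZMod p) (t : ZMod p) = 0 := by
          unfold Pool.Agent.R421.NR.h4 i4
          rw [if_neg fun h => hsz h.1, if_neg fun h => h5 (hq4.1 h.1), if_neg fun h => htz h.1]
          norm_num
        exact Or.inr (Or.inl ⟨hv, hnd, Or.inl (nd_mul (nd_pow hs 2) h5)⟩)

end

end Pool.Agent.R421.NR
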