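import Mathlib
import Pool.Agent.R421.NR.Fv
import Pool.Agent.R421.SF.Fam

/-!
# Project NR: almost all parameters
-/

set_option autoImplicit false
set_option linter.all false

namespace Pool.Agent.R421.NR

open Finset

open Pool.Agent.W262.RK (PS Jr)

open Pool.Agent.W307.RT (Box mem_Box)

open Pool.Agent.W307.SE (Loc Sel SN SN_nonneg)

open Pool.Agent.R431.NO (OkS)

/-! ### The swap -/

lemma loc_sw {K : Type} [Field K] {A B d1 d2 : ℤ} (h : Loc K A B d1 d2) :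
    Loc K (-A) (B - A) d2 d1 := by
  obtain ⟨x, y, hy, hxy, s1, s2⟩ := h
  refine ⟨x - A, y, hy, ?_, s2, ?_⟩
  · rw [hxy]
    push_cast
    ring
  · have e : x - (A : K) - ((-A : ℤ) : K) = x := by
      push_cast
      ring
    rw [e]
    exact s1

lemma sel_sw {A B : ℤ} {d : ℤ × ℤ} (h : d ∈ Sel A B) : (d.2, d.1) ∈ Sel (-A) (B - A) := by
  obtain ⟨h1, h2, h3, h4⟩ := h
  exact ⟨h2, h1, loc_sw h3, fun p _ => loc_sw (h4 p)⟩

lemma SN_sw (A B : ℤ) : SN (-A) (B - A) = SN A B := by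
  have h : Sel (-A) (B - A) = Prod.swap '' Sel A B := by
    ext d
    constructor
    · intro hd
      refine ⟨(d.2, d.1), ?_, rfl⟩
      have := sel_sw hd
      have e1 : -(-A) = A := neg_neg A
      have e2 : (B - A) - -A = B := by ring
      rw [e1, e2] at this
      exact this
    · rintro ⟨d', hd', rfl⟩
      exact sel_sw hd'
  unfold SN
  rw [h, Set.ncard_image_of_injective _ Prod.swap_injective]

/-! ### Almost all coprime parameters -/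

lemma mem_bx {T : ℕ} {t : ℤ × ℤ} (h : t ∈ Box T) :
    t ∈ Ioc (-(T : ℤ) - 1) (-(T : ℤ) - 1 + ((2 * T + 1 : ℕ) : ℤ)) ×ˢ
      Ioc (-(T : ℤ) - 1) (-(T : ℤ) - 1 + ((2 * T + 1 : ℕ) : ℤ)) := by
  rw [mem_Box] at h
  rw [mem_product, mem_Ioc, mem_Ioc]
  omega

theorem par_cop (κ : ℤ) (Cp Cm : Finset ℤ) (A B : ℤ → ℤ → ℤ) (Ok : ℤ → ℤ → Prop) (D : ℕ)
    (hcop : ∀ m n, Ok m n → IsCoprime m n)
    (hnz : ∀ m n, Ok m n → A m n ≠ 0 ∧ B m n ≠ 0 ∧ A m n ≠ B m n)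
    (hfv : ∀ m n, Ok m n → ∀ p : ℕ, p.Prime → 10 < p →
      (∀ c ∈ Cp, ¬ (p : ℤ) ^ 2 ∣ n ^ 2 - c * m ^ 2) →
      FV (A m n) (B m n) p (hm κ Cp Cm p (m : ZMod p) (n : ZMod p)))
    (hsz : ∀ m n (T : ℕ), 81 ≤ T → Ok m n → m.natAbs ≤ T → n.natAbs ≤ T →
      (A m n * B m n * (A m n - B m n)).natAbs ≤ T ^ D)
    (hκ : ∀ p : ℕ, p.Prime → 10 < p → ¬ (p : ℤ) ∣ κ)
    (hCp : ∀ p : ℕ, p.Prime → 10 < p → ∀ c ∈ Cp, ¬ (p : ℤ) ∣ c)
    (hCm : ∀ p : ℕ, p.Prime → 10 < p → ∀ c ∈ Cm, ¬ (p : ℤ) ∣ c)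
    (Ks : Finset ℤ) (hK : ∀ κ ∈ Ks, ∀ r : ℤ, r ^ 2 ≠ κ) (a : ℤ → ℝ)
    (hw : ∀ p : ℕ, 1 + (1 + Jr κ p) / 2 + ∑ c ∈ Cp, (1 + Jr c p) - ∑ c ∈ Cm, (1 + Jr c p) =
      1 / 2 + ∑ κ ∈ Ks, a κ * Jr κ p)
    (hav : ∃ α : ℝ, 0 < α ∧ ∃ C : ℝ, 0 ≤ C ∧ ∀ T : ℕ, 1 ≤ T → ∀ S : Finset (ℤ × ℤ),
      S ⊆ Box T → (∀ t ∈ S, Ok t.1 t.2) →
      ∑ t ∈ S, (SN (A t.1 t.2) (B t.1 t.2)) ^ α ≤ C * (T : ℝ) ^ 2)
    (δ ε : ℝ) (hδ : 0 < δ) (hε : 0 < ε) :
    ∃ R T0 : ℕ, ∀ T : ℕ, T0 ≤ T → ∀ S : Finset (ℤ × ℤ), (∀ t ∈ S, (t ∈ Box T ∧ Ok t.1 t.2) ∧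
      ¬ OkS ((1 / 2 - δ) * Real.log (Real.log T)) ((1 / 2 + δ) * Real.log (Real.log T)) R
        (A t.1 t.2, B t.1 t.2)) → (S.card : ℝ) ≤ ε * (T : ℝ) ^ 2 := by
  classical
  obtain ⟨C1, hC1⟩ := mean2 10 le_rfl Ks hK a
  obtain ⟨c, hc⟩ : ∃ c : ℝ, c = 2 + 2 * Cp.card + 2 * Cm.card := ⟨_, rfl⟩
  have hc1 : 1 ≤ c := by
    rw [hc]
    have h1 : (0 : ℝ) ≤ Cp.card := Nat.cast_nonneg _
    have h2 : (0 : ℝ) ≤ Cm.card := Nat.cast_nonneg _
    linarith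
  have hneZ : ∀ p : ℕ, p.Prime → 10 < p → p ≠ 2 := fun p _ h => by omega
  obtain ⟨T1, hT1⟩ := dens2 (fun p => hm κ Cp Cm p) 10 le_rfl c hc1
    (fun p => ((p : ℝ) - 1) * (1 / 2 + ∑ κ ∈ Ks, a κ * Jr κ p))
    (fun p hp hz => by
      intro _
      haveI : Fact p.Prime := ⟨hp⟩
      rw [← hw p]
      have := hm_sum (p := p) (hneZ p hp hz) κ Cp Cm (hκ p hp hz) (hCp p hp hz) (hCm p hp hz)
      convert this using 2)
    (fun p hp hz => by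
      intro _
      haveI : Fact p.Prime := ⟨hp⟩
      rw [hc]
      have := hm_sum_abs (p := p) (hneZ p hp hz) κ Cp Cm (hκ p hp hz) (hCp p hp hz)
        (hCm p hp hz)
      convert this using 2)
    (fun p x y => by rw [hc]; exact hm_abs κ Cp Cm p x y) C1 hC1 (δ / 2) (ε / 27)
    (by positivity) (by positivity)
  obtain ⟨α, hα, C, hC0, hC⟩ := hav
  -- the ranks
  obtain ⟨R, hR⟩ : ∃ R : ℕ, 3 * C / ε ≤ ((2 : ℝ) ^ α) ^ R := by
    obtain ⟨R, hR⟩ := pow_unbounded_of_one_lt (3 * C / ε) (Real.one_lt_rpow one_lt_two hα)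
    exact ⟨R, hR.le⟩
  -- the exceptional primes
  obtain ⟨E, hE⟩ : ∃ E : ℕ, 108 * Cp.card / ε + 1 ≤ (E : ℝ) := exists_nat_ge _
  obtain ⟨T2, hT2⟩ := big_ll (2 * ((c + 1) * E + 10 + 8 * D + R + 10) / δ)
  refine ⟨R, T1 + T2 + 11 ^ 4 + 81, fun T hT S hS => ?_⟩
  have hbox := hT1 T (by omega) (-(T : ℤ) - 1) (-(T : ℤ) - 1) (2 * T + 1) (2 * T + 1)
    (by omega) (by omega)
  have hll := hT2 T (by omega)
  obtain ⟨ℓ, hℓ⟩ : ∃ ℓ, ℓ = Real.log (Real.log T) := ⟨_, rfl⟩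
  rw [← hℓ] at hbox hll hS
  have hTr : (1 : ℝ) ≤ T := by
    have : 1 ≤ T := by omega
    exact_mod_cast this
  have hKL : (((2 * T + 1 : ℕ) : ℝ) * ((2 * T + 1 : ℕ) : ℝ)) ≤ 9 * (T : ℝ) ^ 2 := by
    push_cast
    nlinarith
  have hy2 : 2 ≤ yT T := (yT_large 10 (by omega)).le.trans' (by norm_num)
  let X : ℤ × ℤ → Finset ℕ := fun t => Cp.biUnion (fun c => Ex c 10 (yT T) t)
  -- the three exceptional sets
  obtain ⟨S1, hS1⟩ : ∃ S1, S1 = S.filter (fun t => ¬ |∑ p ∈ PS 10 (yT T),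
      hm κ Cp Cm p (t.1 : ZMod p) (t.2 : ZMod p) - 1 / 2 * ℓ| ≤ δ / 2 * ℓ) := ⟨_, rfl⟩
  obtain ⟨S2, hS2⟩ : ∃ S2, S2 = S.filter (fun t => E < (X t).card) := ⟨_, rfl⟩
  obtain ⟨S3, hS3⟩ : ∃ S3, S3 = S.filter (fun t => ¬ SN (A t.1 t.2) (B t.1 t.2) ≤ 2 ^ R) :=
    ⟨_, rfl⟩
  have b1 : (S1.card : ℝ) ≤ ε / 3 * (T : ℝ) ^ 2 := by
    have h1 : S1 ⊆ (Ioc (-(T : ℤ) - 1) (-(T : ℤ) - 1 + ((2 * T + 1 : ℕ) : ℤ)) ×ˢ
      Ioc (-(T : ℤ) - 1) (-(T : ℤ) - 1 + ((2 * T + 1 : ℕ) : ℤ))).filter (fun t : ℤ × ℤ =>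
        ¬ |∑ p ∈ PS 10 (yT T), hm κ Cp Cm p (t.1 : ZMod p) (t.2 : ZMod p) -
          1 / 2 * ℓ| ≤ δ / 2 * ℓ) := by
      intro t ht
      rw [hS1, mem_filter] at ht
      exact mem_filter.2 ⟨mem_bx (hS t ht.1).1.1, ht.2⟩
    have h2 : (S1.card : ℝ) ≤ ε / 27 * (((2 * T + 1 : ℕ) : ℝ) * ((2 * T + 1 : ℕ) : ℝ)) := by
      refine le_trans ?_ hbox
      exact_mod_cast card_le_card h1
    refine h2.trans ?_
    nlinarith
  have b2 : (S2.card : ℝ) ≤ ε / 3 * (T : ℝ) ^ 2 := by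
    have h1 : ∑ t ∈ S, ((X t).card : ℝ) ≤ Cp.card * (36 * (T : ℝ) ^ 2) := by
      calc ∑ t ∈ S, ((X t).card : ℝ) ≤ ∑ t ∈ S, ∑ c ∈ Cp, ((Ex c 10 (yT T) t).card : ℝ) := by
            refine sum_le_sum fun t _ => ?_
            exact_mod_cast card_biUnion_le
        _ = ∑ c ∈ Cp, ∑ t ∈ S, ((Ex c 10 (yT T) t).card : ℝ) := sum_comm
        _ ≤ ∑ c ∈ Cp, 36 * (T : ℝ) ^ 2 := by
          refine sum_le_sum fun c hc' => ?_
          refine (ex_cnt c 10 (yT T) (by norm_num) (fun p hp hz => hCp p hp hz c hc')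
            (-(T : ℤ) - 1) (-(T : ℤ) - 1) (2 * T + 1) (2 * T + 1) ?_ S
            (fun t ht => ⟨mem_bx (hS t ht).1.1, hcop _ _ (hS t ht).1.2⟩)).trans ?_
          · have h2 : yT T ^ 2 ≤ yT T ^ 4 := Nat.pow_le_pow_right (by omega) (by norm_num)
            have h3 := yT_pow T
            omega
          · linarith
        _ = _ := by rw [sum_const, nsmul_eq_mul]
    have h2 : (S2.card : ℝ) * E ≤ Cp.card * (36 * (T : ℝ) ^ 2) := by
      refine le_trans ?_ h1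
      calc (S2.card : ℝ) * E = ∑ t ∈ S2, (E : ℝ) := by rw [sum_const, nsmul_eq_mul]
        _ ≤ ∑ t ∈ S2, ((X t).card : ℝ) := by
          refine sum_le_sum fun t ht => ?_
          rw [hS2, mem_filter] at ht
          exact_mod_cast ht.2.le
        _ ≤ _ := by
          refine sum_le_sum_of_subset_of_nonneg ?_ fun _ _ _ => Nat.cast_nonneg _
          rw [hS2]
          exact filter_subset _ _
    have h3 : (0 : ℝ) ≤ 108 * Cp.card / ε := by positivity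
    have h4 : 0 < (E : ℝ) := by linarith
    have h5 : 108 * (Cp.card : ℝ) ≤ E * ε := by
      have : 108 * (Cp.card : ℝ) / ε ≤ E := by linarith
      rwa [div_le_iff₀ hε] at this
    have h6 : (S2.card : ℝ) * E ≤ (ε / 3 * (T : ℝ) ^ 2) * E := by
      refine h2.trans ?_
      have h7 : (0 : ℝ) ≤ (T : ℝ) ^ 2 := by positivity
      nlinarith
    exact le_of_mul_le_mul_right h6 h4
  have b3 : (S3.card : ℝ) ≤ ε / 3 * (T : ℝ) ^ 2 := by
    have h1 := hC T (by omega) S3 (fun t ht => by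
      rw [hS3, mem_filter] at ht
      exact (hS t ht.1).1.1) (fun t ht => by
      rw [hS3, mem_filter] at ht
      exact (hS t ht.1).1.2)
    have h2 : (S3.card : ℝ) * ((2 : ℝ) ^ α) ^ R ≤ C * (T : ℝ) ^ 2 := by
      refine le_trans ?_ h1
      calc (S3.card : ℝ) * ((2 : ℝ) ^ α) ^ R = ∑ t ∈ S3, ((2 : ℝ) ^ α) ^ R := by
            rw [sum_const, nsmul_eq_mul]
        _ ≤ _ := by
          refine sum_le_sum fun t ht => ?_
          rw [hS3, mem_filter, not_le] at ht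
          have h3 : ((2 : ℝ) ^ α) ^ R = ((2 : ℝ) ^ R) ^ α := by
            rw [← Real.rpow_natCast, ← Real.rpow_mul (by norm_num), mul_comm,
              Real.rpow_mul (by norm_num), Real.rpow_natCast]
          rw [h3]
          exact Real.rpow_le_rpow (by positivity) ht.2.le hα.le
    have h4 : 0 < ((2 : ℝ) ^ α) ^ R := by positivity
    rw [div_le_iff₀ hε] at hR
    have h6 : (S3.card : ℝ) * ((2 : ℝ) ^ α) ^ R ≤ (ε / 3 * (T : ℝ) ^ 2) * ((2 : ℝ) ^ α) ^ R := by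
      refine h2.trans ?_
      have h7 : (0 : ℝ) ≤ (T : ℝ) ^ 2 := by positivity
      nlinarith
    exact le_of_mul_le_mul_right h6 h4
  -- everything is exceptional
  have hsub : S ⊆ S1 ∪ S2 ∪ S3 := by
    intro t ht
    by_contra hcon
    rw [mem_union, mem_union, not_or, not_or] at hcon
    obtain ⟨⟨n1, n2⟩, n3⟩ := hcon
    have m1 := not_not.1 (fun h' => n1 (by rw [hS1]; exact mem_filter.2 ⟨ht, h'⟩))
    have m2 : (X t).card ≤ E := not_lt.1 (fun h' => n2 (by rw [hS2]; exact mem_filter.2 ⟨ht, h'⟩))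
    have m3 := not_not.1 (fun h' => n3 (by rw [hS3]; exact mem_filter.2 ⟨ht, h'⟩))
    obtain ⟨⟨k1, k2⟩, k3⟩ := hS t ht
    obtain ⟨z1, z2, z3⟩ := hnz _ _ k2
    rw [mem_Box] at k1
    have hN : A t.1 t.2 * B t.1 t.2 * (A t.1 t.2 - B t.1 t.2) ≠ 0 :=
      mul_ne_zero (mul_ne_zero z1 z2) (sub_ne_zero.2 z3)
    have hW : ((A t.1 t.2 * B t.1 t.2 * (A t.1 t.2 - B t.1 t.2)).natAbs.primeFactors.filter
        (fun p => yT T < p)).card ≤ 8 * D := by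
      apply large_card hN hy2
      calc _ ≤ T ^ D := hsz _ _ T (by omega) k2 k1.1 k1.2
        _ ≤ (yT T ^ 8) ^ D := Nat.pow_le_pow_left (le_yT (by omega)) D
        _ = _ := by rw [← pow_mul]
    have hWr : (((A t.1 t.2 * B t.1 t.2 * (A t.1 t.2 - B t.1 t.2)).natAbs.primeFactors.filter
        (fun p => yT T < p)).card : ℝ) ≤ 8 * D := by exact_mod_cast hW
    have hXr : ((X t).card : ℝ) ≤ E := by exact_mod_cast m2
    have hb : (c + 1) * E + 10 + 8 * D + R + 10 ≤ δ / 2 * ℓ := by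
      rw [div_le_iff₀ hδ] at hll
      linarith
    have hcX : (c + 1) * ((X t).card : ℝ) ≤ (c + 1) * E :=
      mul_le_mul_of_nonneg_left hXr (by linarith)
    have m1' := abs_le.1 m1
    apply k3
    refine val_ok z1 z2 z3 m3 10 (yT T) le_rfl
      (fun p => hm κ Cp Cm p (t.1 : ZMod p) (t.2 : ZMod p)) c (by linarith) (X t)
      ((A t.1 t.2 * B t.1 t.2 * (A t.1 t.2 - B t.1 t.2)).natAbs.primeFactors.filter
        (fun p => yT T < p)) (fun p hp hpX => ?_) (fun p => by rw [hc]; exact hm_abs κ Cp Cm p _ _)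
      (fun p p1 p2 p3 => ?_) ?_ ?_
    · have hp' := hp
      unfold PS at hp'
      rw [mem_filter, mem_Ioc] at hp'
      refine hfv _ _ k2 p hp'.2 hp'.1.1 fun c hc' hd => hpX ?_
      refine mem_biUnion.2 ⟨c, hc', ?_⟩
      unfold Ex
      exact mem_filter.2 ⟨hp, hd⟩
    · rw [mem_filter, Nat.mem_primeFactors]
      exact ⟨⟨p1, Int.natCast_dvd.1 p3, Int.natAbs_ne_zero.2 hN⟩, p2⟩
    · push_cast
      linarith [m1'.1, m1'.2]
    · push_cast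
      linarith [m1'.1, m1'.2]
  have h1 := (card_le_card hsub).trans (card_union_le _ _)
  have h2 := card_union_le S1 S2
  have h3 : (S.card : ℝ) ≤ S1.card + S2.card + S3.card := by
    have : S.card ≤ S1.card + S2.card + S3.card := by omega
    exact_mod_cast this
  linarith

end Pool.Agent.R421.NR
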